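import Mathlib

open Finset

namespace Pool.Agent.Results.MP_885588_nt.Growth

/-! ### Definitions used in the final statement -/

/-- The counting function `A(n)`: the number of `a ∈ A` with `0 < a ≤ n`. -/
noncomputable def count (A : Set ℕ) (n : ℕ) : ℕ := (A ∩ Set.Ioc 0 n).ncard

/-- `r₁(A,n,k)`: the number of `k`-tuples `(a_1,…,a_k) ∈ A^k` with sum `n`. -/
noncomputable def r₁ (A : Set ℕ) (n k : ℕ) : ℕ :=
  {a : Fin k → ℕ | (∀ j, a j ∈ A) ∧ ∑ j, a j = n}.ncard

/-- `r₂(A,n,k)`: the number of such tuples with `a_1 ≤ a_2 ≤ … ≤ a_k`. -/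
noncomputable def r₂ (A : Set ℕ) (n k : ℕ) : ℕ :=
  {a : Fin k → ℕ | (∀ j, a j ∈ A) ∧ ∑ j, a j = n ∧ Monotone a}.ncard

/-- `r₃(A,n,k)`: the number of such tuples with `a_1 < a_2 < … < a_k`. -/
noncomputable def r₃ (A : Set ℕ) (n k : ℕ) : ℕ :=
  {a : Fin k → ℕ | (∀ j, a j ∈ A) ∧ ∑ j, a j = n ∧ StrictMono a}.ncard

/-- `f` is increasing (not necessarily strictly) from some point on. -/
def EventuallyIncreasing (f : ℕ → ℕ) : Prop := ∃ n₀, ∀ n ≥ n₀, f n ≤ f (n + 1)

/-! ### The proof -/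



/-- tuples with entries `< X` -/
def box (k X : ℕ) : Finset (Fin k → ℕ) := Fintype.piFinset fun _ => range X

theorem mem_box {k X : ℕ} {a : Fin k → ℕ} : a ∈ box k X ↔ ∀ j, a j < X := by
  simp [box, Fintype.mem_piFinset]

section alg
variable {R : Type*} [CommRing R] (w : ℕ → R)
open Classical in
noncomputable def us (k X : ℕ) : R := ∑ a ∈ (box k X).filter (fun a => StrictMono a), ∏ j, w (a j)
open Classical in
noncomputable def um (k X : ℕ) : R := ∑ a ∈ (box k X).filter (fun a => Monotone a), ∏ j, w (a j)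

def pw (l X : ℕ) : R := ∑ a ∈ range X, w a ^ l

theorem us_zero (X : ℕ) : us w 0 X = 1 := by
  classical
  unfold us
  have : (box 0 X).filter (fun a => StrictMono a) = {Fin.elim0} := by
    ext a
    simp only [mem_filter, mem_box, mem_singleton]
    constructor
    · intro _; exact Subsingleton.elim _ _
    · intro _; exact ⟨fun j => j.elim0, fun i => i.elim0⟩
  rw [this]; simp

theorem um_zero (X : ℕ) : um w 0 X = 1 := by
  classical
  unfold um
  have : (box 0 X).filter (fun a => Monotone a) = {Fin.elim0} := by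
    ext a
    simp only [mem_filter, mem_box, mem_singleton]
    constructor
    · intro _; exact Subsingleton.elim _ _
    · intro _; exact ⟨fun j => j.elim0, fun i => i.elim0⟩
  rw [this]; simp

theorem us_succ_zero (k : ℕ) : us w (k + 1) 0 = 0 := by
  classical
  unfold us
  apply Finset.sum_eq_zero
  intro a ha
  simp only [mem_filter, mem_box] at ha
  exact absurd (ha.1 0) (by omega)

theorem um_succ_zero (k : ℕ) : um w (k + 1) 0 = 0 := by
  classical
  unfold um
  apply Finset.sum_eq_zero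
  intro a ha
  simp only [mem_filter, mem_box] at ha
  exact absurd (ha.1 0) (by omega)

theorem us_succ_succ (k X : ℕ) : us w (k + 1) (X + 1) = us w (k + 1) X + w X * us w k X := by
  classical
  unfold us
  rw [← Finset.sum_filter_add_sum_filter_not ((box (k+1) (X+1)).filter (fun a => StrictMono a))
    (fun a => a (Fin.last k) < X)]
  congr 1
  · apply Finset.sum_congr _ (fun _ _ => rfl)
    ext a
    simp only [mem_filter, mem_box]
    constructor
    · rintro ⟨⟨h1, h2⟩, h3⟩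
      exact ⟨fun j => lt_of_le_of_lt (h2.monotone (Fin.le_last j)) h3, h2⟩
    · rintro ⟨h1, h2⟩
      exact ⟨⟨fun j => (h1 j).trans (Nat.lt_succ_self X), h2⟩, h1 _⟩
  · rw [Finset.mul_sum]
    symm
    apply Finset.sum_bij' (fun (a : Fin k → ℕ) _ => (Fin.snoc a X : Fin (k+1) → ℕ))
      (fun (a : Fin (k+1) → ℕ) _ => (Fin.init a : Fin k → ℕ))
    · intro a ha
      simp only [mem_filter, mem_box] at ha ⊢
      refine ⟨⟨?_, ?_⟩, ?_⟩
      · intro j
        refine Fin.lastCases ?_ (fun i => ?_) j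
        · simp
        · simp only [Fin.snoc_castSucc]; exact (ha.1 i).trans (Nat.lt_succ_self X)
      · intro i j hij
        induction j using Fin.lastCases with
        | last =>
          induction i using Fin.lastCases with
          | last => exact absurd hij (lt_irrefl _)
          | cast i => simp only [Fin.snoc_castSucc, Fin.snoc_last]; exact ha.1 i
        | cast j =>
          induction i using Fin.lastCases with
          | last => exact absurd hij (not_lt.2 (Fin.le_last _))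
          | cast i =>
            simp only [Fin.snoc_castSucc]
            exact ha.2 (Fin.castSucc_lt_castSucc_iff.1 hij)
      · simp
    · intro a ha
      simp only [mem_filter, mem_box, not_lt] at ha ⊢
      have hl : a (Fin.last k) = X := le_antisymm (Nat.lt_succ_iff.1 (ha.1.1 _)) ha.2
      refine ⟨fun j => ?_, fun i j hij => ?_⟩
      · simp only [Fin.init]
        rw [← hl]; exact ha.1.2 (Fin.castSucc_lt_last j)
      · simp only [Fin.init]
        exact ha.1.2 (Fin.castSucc_lt_castSucc_iff.2 hij)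
    · intro a ha; simp
    · intro a ha
      simp only [mem_filter, mem_box, not_lt] at ha
      have hl : a (Fin.last k) = X := le_antisymm (Nat.lt_succ_iff.1 (ha.1.1 _)) ha.2
      rw [← hl]; exact Fin.snoc_init_self a
    · intro a ha
      rw [Fin.prod_univ_castSucc]
      simp [mul_comm]

theorem um_succ_succ (k X : ℕ) : um w (k + 1) (X + 1) = um w (k + 1) X + w X * um w k (X + 1) := by
  classical
  unfold um
  rw [← Finset.sum_filter_add_sum_filter_not ((box (k+1) (X+1)).filter (fun a => Monotone a))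
    (fun a => a (Fin.last k) < X)]
  congr 1
  · apply Finset.sum_congr _ (fun _ _ => rfl)
    ext a
    simp only [mem_filter, mem_box]
    constructor
    · rintro ⟨⟨h1, h2⟩, h3⟩
      exact ⟨fun j => lt_of_le_of_lt (h2 (Fin.le_last j)) h3, h2⟩
    · rintro ⟨h1, h2⟩
      exact ⟨⟨fun j => (h1 j).trans (Nat.lt_succ_self X), h2⟩, h1 _⟩
  · rw [Finset.mul_sum]
    symm
    apply Finset.sum_bij' (fun (a : Fin k → ℕ) _ => (Fin.snoc a X : Fin (k+1) → ℕ))
      (fun (a : Fin (k+1) → ℕ) _ => (Fin.init a : Fin k → ℕ))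
    · intro a ha
      simp only [mem_filter, mem_box] at ha ⊢
      refine ⟨⟨?_, ?_⟩, ?_⟩
      · intro j
        refine Fin.lastCases ?_ (fun i => ?_) j
        · simp
        · simp only [Fin.snoc_castSucc]; exact ha.1 i
      · intro i j hij
        induction j using Fin.lastCases with
        | last =>
          induction i using Fin.lastCases with
          | last => exact le_refl _
          | cast i => simp only [Fin.snoc_castSucc, Fin.snoc_last]; exact Nat.lt_succ_iff.1 (ha.1 i)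
        | cast j =>
          induction i using Fin.lastCases with
          | last => exact absurd hij (not_le.2 (Fin.castSucc_lt_last _))
          | cast i =>
            simp only [Fin.snoc_castSucc]
            exact ha.2 (Fin.castSucc_le_castSucc_iff.1 hij)
      · simp
    · intro a ha
      simp only [mem_filter, mem_box, not_lt] at ha ⊢
      refine ⟨fun j => ?_, fun i j hij => ?_⟩
      · simp only [Fin.init]
        exact ha.1.1 _
      · simp only [Fin.init]
        exact ha.1.2 (Fin.castSucc_le_castSucc_iff.2 hij)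
    · intro a ha; simp
    · intro a ha
      simp only [mem_filter, mem_box, not_lt] at ha
      have hl : a (Fin.last k) = X := le_antisymm (Nat.lt_succ_iff.1 (ha.1.1 _)) ha.2
      rw [← hl]; exact Fin.snoc_init_self a
    · intro a ha
      rw [Fin.prod_univ_castSucc]
      simp [mul_comm]

/-- Newton's identity for strictly increasing tuples. -/
theorem newton_us (X : ℕ) : ∀ n : ℕ,
    (n : R) * us w n X = ∑ l ∈ range n, (-1) ^ l * pw w (l + 1) X * us w (n - 1 - l) X := by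
  induction X with
  | zero =>
    intro n
    cases n with
    | zero => simp
    | succ n => simp [us_succ_zero, pw]
  | succ X ih =>
    intro n
    have hp : ∀ l, pw w l (X + 1) = pw w l X + w X ^ l := fun l => by
      simp [pw, Finset.sum_range_succ]
    cases n with
    | zero => simp
    | succ n =>
      -- `e' j = e j + x e (j-1)`
      have key : ∀ m : ℕ, ∑ l ∈ range (m + 1), (-1 : R) ^ l * w X ^ (l + 1) * us w (m - l) (X + 1) =
          w X * us w m X := by
        intro m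
        induction m with
        | zero => simp [us_zero]
        | succ m ihm =>
          rw [Finset.sum_range_succ']
          have e1 : ∀ l ∈ range (m + 1), (-1 : R) ^ (l + 1) * w X ^ (l + 1 + 1) * us w (m + 1 - (l + 1)) (X + 1)
              = - w X * ((-1 : R) ^ l * w X ^ (l + 1) * us w (m - l) (X + 1)) := by
            intro l _
            rw [Nat.add_sub_add_right]; ring
          rw [Finset.sum_congr rfl e1, ← Finset.mul_sum, ihm]
          simp only [pow_zero, zero_add, pow_one, one_mul, Nat.sub_zero, us_succ_succ]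
          ring
      have hsplit : ∑ l ∈ range (n + 1), (-1 : R) ^ l * pw w (l + 1) (X + 1) * us w (n + 1 - 1 - l) (X + 1)
          = (∑ l ∈ range (n + 1), (-1 : R) ^ l * pw w (l + 1) X * us w (n - l) (X + 1)) +
            w X * us w n X := by
        rw [← key n, ← Finset.sum_add_distrib]
        apply Finset.sum_congr rfl
        intro l _
        rw [hp, Nat.add_sub_cancel]; ring
      rw [hsplit]
      have h2 : ∑ l ∈ range (n + 1), (-1 : R) ^ l * pw w (l + 1) X * us w (n - l) (X + 1) =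
          (∑ l ∈ range (n + 1), (-1 : R) ^ l * pw w (l + 1) X * us w (n - l) X) +
          w X * (∑ l ∈ range n, (-1 : R) ^ l * pw w (l + 1) X * us w (n - 1 - l) X) := by
        rw [Finset.sum_range_succ, Finset.sum_range_succ _ n, Finset.mul_sum]
        simp only [Nat.sub_self, us_zero]
        rw [add_right_comm, ← Finset.sum_add_distrib]
        congr 1
        apply Finset.sum_congr rfl
        intro l hl
        have hl' := mem_range.1 hl
        obtain ⟨t, rfl⟩ : ∃ t, n = l + 1 + t := ⟨n - (l + 1), by omega⟩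
        have e1 : l + 1 + t - l = t + 1 := by omega
        have e2 : l + 1 + t - 1 - l = t := by omega
        rw [e1, e2, us_succ_succ]; ring
      have h3 := ih (n + 1)
      have h4 := ih n
      simp only [Nat.add_sub_cancel] at h3
      rw [h2, ← h3, ← h4, us_succ_succ]
      push_cast; ring

/-- Newton's identity for weakly increasing tuples. -/
theorem newton_um (X : ℕ) : ∀ n : ℕ,
    (n : R) * um w n X = ∑ l ∈ range n, pw w (l + 1) X * um w (n - 1 - l) X := by
  induction X with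
  | zero =>
    intro n
    cases n with
    | zero => simp
    | succ n => simp [um_succ_zero, pw]
  | succ X ih =>
    have hp : ∀ l, pw w l (X + 1) = pw w l X + w X ^ l := fun l => by
      simp [pw, Finset.sum_range_succ]
    intro n
    induction n with
    | zero => simp
    | succ n ihn =>
      -- h (n+1) X = h' (n+1) - x h' n
      have hX : ∀ m, um w (m + 1) X = um w (m + 1) (X + 1) - w X * um w m (X + 1) := by
        intro m; rw [um_succ_succ]; ring
      have h3 := ih (n + 1)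
      simp only [Nat.add_sub_cancel] at h3 ihn ⊢
      -- rewrite the right side of h3
      have h5 : ∑ l ∈ range (n + 1), pw w (l + 1) X * um w (n - l) X =
          (∑ l ∈ range (n + 1), pw w (l + 1) X * um w (n - l) (X + 1)) -
          w X * (∑ l ∈ range n, pw w (l + 1) X * um w (n - 1 - l) (X + 1)) := by
        rw [Finset.sum_range_succ, Finset.sum_range_succ _ n, Finset.mul_sum]
        simp only [Nat.sub_self, um_zero]
        rw [add_sub_right_comm, ← Finset.sum_sub_distrib]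
        congr 1
        apply Finset.sum_congr rfl
        intro l hl
        have hl' := mem_range.1 hl
        obtain ⟨t, rfl⟩ : ∃ t, n = l + 1 + t := ⟨n - (l + 1), by omega⟩
        have e1 : l + 1 + t - l = t + 1 := by omega
        have e2 : l + 1 + t - 1 - l = t := by omega
        rw [e1, e2, hX]; ring
      have h6 : ∑ l ∈ range (n + 1), pw w (l + 1) (X + 1) * um w (n - l) (X + 1) =
          (∑ l ∈ range (n + 1), pw w (l + 1) X * um w (n - l) (X + 1)) +
          ∑ l ∈ range (n + 1), w X ^ (l + 1) * um w (n - l) (X + 1) := by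
        rw [← Finset.sum_add_distrib]
        apply Finset.sum_congr rfl
        intro l _
        rw [hp]; ring
      have h7 : ∑ l ∈ range n, pw w (l + 1) (X + 1) * um w (n - 1 - l) (X + 1) =
          (∑ l ∈ range n, pw w (l + 1) X * um w (n - 1 - l) (X + 1)) +
          ∑ l ∈ range n, w X ^ (l + 1) * um w (n - 1 - l) (X + 1) := by
        rw [← Finset.sum_add_distrib]
        apply Finset.sum_congr rfl
        intro l _
        rw [hp]; ring
      have h8 : ∑ l ∈ range (n + 1), w X ^ (l + 1) * um w (n - l) (X + 1) =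
          w X * um w n (X + 1) + w X * ∑ l ∈ range n, w X ^ (l + 1) * um w (n - 1 - l) (X + 1) := by
        rw [Finset.sum_range_succ', add_comm, Finset.mul_sum]
        congr 1
        · simp
        · apply Finset.sum_congr rfl
          intro l _
          have : n - (l + 1) = n - 1 - l := by omega
          rw [this]; ring
      rw [hX] at h3
      rw [h6, h8]
      rw [h7] at ihn
      rw [h5] at h3
      push_cast at h3 ⊢
      linear_combination h3 + w X * ihn

end alg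


theorem newton_bound (k : ℕ) (u p s : ℕ → ℂ) (hs : ∀ l, ‖s l‖ = 1) (hs0 : s 0 = 1) (hu0 : u 0 = 1)
    (hN : ∀ n : ℕ, (n : ℂ) * u n = ∑ l ∈ range n, s l * p (l + 1) * u (n - 1 - l))
    (U q : ℝ) (hU : 0 ≤ U) (hq0 : 0 ≤ q) (hq1 : q ≤ 1) (hp1 : ‖p 1‖ ≤ U)
    (hp : ∀ l, 2 ≤ l → l ≤ k → ‖p l‖ ≤ q * U ^ l) :
    ∀ n ≤ k, ‖u n‖ ≤ U ^ n ∧ ‖(n.factorial : ℂ) * u n - p 1 ^ n‖ ≤ n.factorial * q * U ^ n := by
  intro n
  induction n using Nat.strong_induction_on with
  | _ n ih =>
    intro hnk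
    rcases Nat.eq_zero_or_pos n with h0 | h0
    · subst h0; simp [hu0, hq0]
    obtain ⟨n, rfl⟩ : ∃ m, n = m + 1 := ⟨n - 1, by omega⟩
    have hNn := hN (n + 1)
    simp only [Nat.add_sub_cancel] at hNn
    have hnpos : (0 : ℝ) < ((n + 1 : ℕ) : ℝ) := by positivity
    have hpl : ∀ l, l + 1 ≤ k → ‖p (l + 1)‖ ≤ U ^ (l + 1) := by
      intro l hl
      rcases Nat.eq_zero_or_pos l with h | h
      · subst h; simpa using hp1
      · refine (hp (l + 1) (by omega) hl).trans ?_
        exact mul_le_of_le_one_left (by positivity) hq1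
    constructor
    · have h1 : ‖((n + 1 : ℕ) : ℂ) * u (n + 1)‖ ≤ ((n + 1 : ℕ) : ℝ) * U ^ (n + 1) := by
        rw [hNn]
        refine (norm_sum_le _ _).trans ?_
        have : ∀ l ∈ range (n + 1), ‖s l * p (l + 1) * u (n - l)‖ ≤ U ^ (n + 1) := by
          intro l hl
          have hl' := mem_range.1 hl
          rw [norm_mul, norm_mul, hs, one_mul]
          have e : U ^ (n + 1) = U ^ (l + 1) * U ^ (n - l) := by
            rw [← pow_add]; congr 1; omega
          rw [e]
          exact mul_le_mul (hpl l (by omega)) (ih (n - l) (by omega) (by omega)).1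
            (norm_nonneg _) (by positivity)
        refine (Finset.sum_le_sum this).trans ?_
        simp
      rw [norm_mul, Complex.norm_natCast] at h1
      exact le_of_mul_le_mul_left h1 hnpos
    · have h2 : (((n + 1).factorial : ℕ) : ℂ) * u (n + 1) =
          (n.factorial : ℂ) * (p 1 * u n + ∑ l ∈ range n, s (l + 1) * p (l + 2) * u (n - (l + 1))) := by
        rw [Nat.factorial_succ, Nat.cast_mul, mul_right_comm, hNn, mul_comm]
        congr 1
        rw [Finset.sum_range_succ', add_comm]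
        simp [hs0]
      have h3 : (((n + 1).factorial : ℕ) : ℂ) * u (n + 1) - p 1 ^ (n + 1) =
          p 1 * ((n.factorial : ℂ) * u n - p 1 ^ n) +
          (n.factorial : ℂ) * ∑ l ∈ range n, s (l + 1) * p (l + 2) * u (n - (l + 1)) := by
        rw [h2]; ring
      rw [h3]
      refine (norm_add_le _ _).trans ?_
      have h4 : ‖p 1 * ((n.factorial : ℂ) * u n - p 1 ^ n)‖ ≤ n.factorial * q * U ^ (n + 1) := by
        rw [norm_mul]
        calc ‖p 1‖ * ‖(n.factorial : ℂ) * u n - p 1 ^ n‖ ≤ U * (n.factorial * q * U ^ n) :=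
              mul_le_mul hp1 (ih n (by omega) (by omega)).2 (norm_nonneg _) hU
          _ = _ := by ring
      have h5 : ‖∑ l ∈ range n, s (l + 1) * p (l + 2) * u (n - (l + 1))‖ ≤ n * (q * U ^ (n + 1)) := by
        refine (norm_sum_le _ _).trans ?_
        have : ∀ l ∈ range n, ‖s (l + 1) * p (l + 2) * u (n - (l + 1))‖ ≤ q * U ^ (n + 1) := by
          intro l hl
          have hl' := mem_range.1 hl
          rw [norm_mul, norm_mul, hs, one_mul]
          have e : q * U ^ (n + 1) = (q * U ^ (l + 2)) * U ^ (n - (l + 1)) := by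
            rw [mul_assoc, ← pow_add]; congr 2; omega
          rw [e]
          exact mul_le_mul (hp (l + 2) (by omega) (by omega)) (ih (n - (l + 1)) (by omega) (by omega)).1
            (norm_nonneg _) (by positivity)
        refine (Finset.sum_le_sum this).trans ?_
        simp
      have h6 : ‖(n.factorial : ℂ) * ∑ l ∈ range n, s (l + 1) * p (l + 2) * u (n - (l + 1))‖ ≤
          n.factorial * (n * (q * U ^ (n + 1))) := by
        rw [norm_mul, Complex.norm_natCast]
        exact mul_le_mul_of_nonneg_left h5 (by positivity)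
      rw [Nat.factorial_succ]
      push_cast
      calc _ ≤ n.factorial * q * U ^ (n + 1) + n.factorial * (n * (q * U ^ (n + 1))) := add_le_add h4 h6
        _ = _ := by ring

/-- pointwise inequality -/
theorem pointwise (k : ℕ) (hk : 2 ≤ k) (u p s : ℕ → ℂ) (hs : ∀ l, ‖s l‖ = 1) (hs0 : s 0 = 1)
    (hu0 : u 0 = 1)
    (hN : ∀ n : ℕ, (n : ℂ) * u n = ∑ l ∈ range n, s l * p (l + 1) * u (n - 1 - l)) :
    ‖p 1‖ ^ 2 ≤ (2 * k.factorial * ‖u k‖) ^ ((2 : ℝ) / k) +
      2 * k.factorial * (1 + ∑ l ∈ Icc 2 k, ‖p l‖) := by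
  set τ : ℝ := 1 + ∑ l ∈ Icc 2 k, ‖p l‖ with hτ
  have hsum0 : 0 ≤ ∑ l ∈ Icc 2 k, ‖p l‖ := Finset.sum_nonneg fun _ _ => norm_nonneg _
  have hτ1 : 1 ≤ τ := by linarith
  have hkf : (1 : ℝ) ≤ k.factorial := by exact_mod_cast Nat.one_le_iff_ne_zero.2 (Nat.factorial_ne_zero k)
  set x := ‖p 1‖ with hx
  have hx0 : 0 ≤ x := norm_nonneg _
  by_cases hcase : x ^ 2 ≤ 2 * k.factorial * τ
  · have : 0 ≤ (2 * k.factorial * ‖u k‖ : ℝ) ^ ((2 : ℝ) / k) := by positivity
    linarith
  · push Not at hcase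
    have hx2 : 2 < x ^ 2 := by nlinarith
    have hx1 : 1 ≤ x := by nlinarith
    have hxpos : 0 < x := by linarith
    have hq1 : τ / x ^ 2 ≤ 1 / (2 * k.factorial) := by
      rw [div_le_div_iff₀ (by positivity) (by positivity)]
      linarith
    have hq1' : τ / x ^ 2 ≤ 1 := by
      rw [div_le_one (by positivity)]
      nlinarith
    have hmain := (newton_bound k u p s hs hs0 hu0 hN x (τ / x ^ 2) hx0 (by positivity) hq1' le_rfl
      (by
        intro l hl2 hlk
        have h1 : ‖p l‖ ≤ τ := by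
          have := Finset.single_le_sum (f := fun l => ‖p l‖) (fun _ _ => norm_nonneg _)
            (Finset.mem_Icc.2 ⟨hl2, hlk⟩)
          linarith
        refine h1.trans ?_
        have h2 : x ^ 2 ≤ x ^ l := pow_le_pow_right₀ hx1 hl2
        rw [div_mul_eq_mul_div, le_div_iff₀ (by positivity)]
        exact mul_le_mul_of_nonneg_left h2 (by linarith)) k le_rfl).2
    have h3 : (k.factorial : ℝ) * (τ / x ^ 2) * x ^ k ≤ x ^ k / 2 := by
      have : (k.factorial : ℝ) * (τ / x ^ 2) ≤ 1 / 2 := by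
        calc (k.factorial : ℝ) * (τ / x ^ 2) ≤ k.factorial * (1 / (2 * k.factorial)) :=
              mul_le_mul_of_nonneg_left hq1 (by positivity)
          _ = 1 / 2 := by field_simp
      nlinarith [pow_pos hxpos k]
    have h4 : x ^ k ≤ 2 * k.factorial * ‖u k‖ := by
      have h5 : ‖p 1 ^ k‖ ≤ ‖(k.factorial : ℂ) * u k‖ + ‖(k.factorial : ℂ) * u k - p 1 ^ k‖ := by
        have := norm_sub_le ((k.factorial : ℂ) * u k) ((k.factorial : ℂ) * u k - p 1 ^ k)
        simpa using this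
      rw [norm_pow, norm_mul, Complex.norm_natCast, ← hx] at h5
      linarith
    have h6 : x ^ 2 ≤ (2 * k.factorial * ‖u k‖ : ℝ) ^ ((2 : ℝ) / k) := by
      have hk0 : (k : ℝ) ≠ 0 := by positivity
      have e : x ^ 2 = (x ^ k) ^ ((2 : ℝ) / k) := by
        rw [← Real.rpow_natCast x k, ← Real.rpow_mul hx0, mul_div_cancel₀ _ hk0]
        norm_num
      rw [e]
      exact Real.rpow_le_rpow (by positivity) h4 (by positivity)
    have : 0 ≤ 2 * k.factorial * τ := by positivity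
    linarith



theorem orth (M : ℕ) (hM : 0 < M) (ω : ℂ) (hω : IsPrimitiveRoot ω M) (a b : ℕ) :
    ∑ j ∈ range M, (ω ^ j) ^ a * (starRingEnd ℂ) ((ω ^ j) ^ b) = if a ≡ b [MOD M] then (M : ℂ) else 0 := by
  have hnorm : ‖ω‖ = 1 := hω.norm'_eq_one hM.ne'
  have hconj : (starRingEnd ℂ) ω = ω⁻¹ := by
    rw [Complex.inv_def, Complex.normSq_eq_norm_sq, hnorm]; simp
  have hω0 : ω ≠ 0 := by
    intro h; rw [h] at hnorm; simp at hnorm
  set η : ℂ := ω ^ a * (ω⁻¹) ^ b with hη
  have h1 : ∀ j ∈ range M, (ω ^ j) ^ a * (starRingEnd ℂ) ((ω ^ j) ^ b) = η ^ j := by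
    intro j _
    rw [map_pow, map_pow, hconj, hη, mul_pow, ← pow_mul, ← pow_mul, ← pow_mul, ← pow_mul,
      mul_comm j a, mul_comm j b]
  rw [Finset.sum_congr rfl h1]
  have hη1 : η = 1 ↔ a ≡ b [MOD M] := by
    rw [hη, inv_pow, mul_inv_eq_one₀ (pow_ne_zero _ hω0)]
    constructor
    · intro h
      have h1 : ω ^ (a % M) = ω ^ (b % M) := by
        rw [← pow_mod_orderOf, ← pow_mod_orderOf ω b, ← hω.eq_orderOf] at h
        exact h
      exact hω.pow_inj (Nat.mod_lt _ hM) (Nat.mod_lt _ hM) h1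
    · intro h
      rw [← pow_mod_orderOf, ← pow_mod_orderOf ω b, ← hω.eq_orderOf, h]
  split_ifs with h
  · rw [hη1.2 h]; simp
  · have hne : η ≠ 1 := fun h' => h (hη1.1 h')
    have hηM : η ^ M = 1 := by
      rw [hη, mul_pow, ← pow_mul, ← pow_mul, mul_comm a M, mul_comm b M, pow_mul, pow_mul,
        inv_pow, hω.pow_eq_one]
      simp
    rw [geom_sum_eq hne, hηM]; simp

theorem parseval (M : ℕ) (hM : 0 < M) (ω : ℂ) (hω : IsPrimitiveRoot ω M) (S : Finset ℕ)
    (c : ℕ → ℝ) (e : ℕ → ℕ) :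
    ∑ j ∈ range M, ‖∑ a ∈ S, (c a : ℂ) * (ω ^ j) ^ (e a)‖ ^ 2 =
      M * ∑ a ∈ S, ∑ b ∈ S, if e a ≡ e b [MOD M] then c a * c b else 0 := by
  have h : ((∑ j ∈ range M, ‖∑ a ∈ S, (c a : ℂ) * (ω ^ j) ^ (e a)‖ ^ 2 : ℝ) : ℂ) =
      ((M * ∑ a ∈ S, ∑ b ∈ S, if e a ≡ e b [MOD M] then c a * c b else 0 : ℝ) : ℂ) := by
    push_cast
    have h1 : ∀ j ∈ range M, (‖∑ a ∈ S, (c a : ℂ) * (ω ^ j) ^ (e a)‖ : ℂ) ^ 2 =
        ∑ a ∈ S, ∑ b ∈ S, (c a : ℂ) * c b * ((ω ^ j) ^ (e a) * (starRingEnd ℂ) ((ω ^ j) ^ (e b))) := by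
      intro j _
      rw [← Complex.mul_conj', map_sum, Finset.sum_mul_sum]
      refine Finset.sum_congr rfl fun a _ => Finset.sum_congr rfl fun b _ => ?_
      rw [map_mul, Complex.conj_ofReal]; ring
    rw [Finset.sum_congr rfl h1, Finset.sum_comm, Finset.mul_sum]
    refine Finset.sum_congr rfl fun a _ => ?_
    rw [Finset.sum_comm, Finset.mul_sum]
    refine Finset.sum_congr rfl fun b _ => ?_
    rw [← Finset.mul_sum, orth M hM ω hω]
    split_ifs <;> simp [mul_comm]
  exact_mod_cast h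

/-- comparison of the mean squares -/
theorem meansq_le (M : ℕ) (hM : 0 < M) (ω : ℂ) (hω : IsPrimitiveRoot ω M) (S : Finset ℕ)
    (r : ℝ) (hr0 : 0 ≤ r) (hr1 : r ≤ 1) (l : ℕ) (hl : 0 < l) (hcop : Nat.Coprime l M) :
    ∑ j ∈ range M, ‖∑ a ∈ S, (((r : ℂ) * ω ^ j) ^ a) ^ l‖ ^ 2 ≤
      ∑ j ∈ range M, ‖∑ a ∈ S, ((r : ℂ) * ω ^ j) ^ a‖ ^ 2 := by
  have e1 : ∀ j ∈ range M, ‖∑ a ∈ S, (((r : ℂ) * ω ^ j) ^ a) ^ l‖ ^ 2 =
      ‖∑ a ∈ S, (((fun a => r ^ (a * l)) a : ℝ) : ℂ) * (ω ^ j) ^ ((fun a => a * l) a)‖ ^ 2 := by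
    intro j _
    congr 2
    refine Finset.sum_congr rfl fun a _ => ?_
    simp only
    rw [← pow_mul, mul_pow]; push_cast; rfl
  have e2 : ∀ j ∈ range M, ‖∑ a ∈ S, ((r : ℂ) * ω ^ j) ^ a‖ ^ 2 =
      ‖∑ a ∈ S, (((fun a => r ^ a) a : ℝ) : ℂ) * (ω ^ j) ^ ((fun a => a) a)‖ ^ 2 := by
    intro j _
    congr 2
    refine Finset.sum_congr rfl fun a _ => ?_
    simp only
    rw [mul_pow]; push_cast; rfl
  rw [Finset.sum_congr rfl e1, Finset.sum_congr rfl e2, parseval M hM ω hω S, parseval M hM ω hω S]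
  refine mul_le_mul_of_nonneg_left ?_ (by positivity)
  refine Finset.sum_le_sum fun a _ => Finset.sum_le_sum fun b _ => ?_
  have hiff : a * l ≡ b * l [MOD M] ↔ a ≡ b [MOD M] := by
    constructor
    · intro h
      exact Nat.ModEq.cancel_right_of_coprime (by rwa [Nat.gcd_comm] ) h
    · intro h; exact h.mul_right l
  by_cases h : a ≡ b [MOD M]
  · rw [if_pos h, if_pos (hiff.2 h)]
    have : ∀ c : ℕ, r ^ (c * l) ≤ r ^ c := fun c =>
      pow_le_pow_of_le_one hr0 hr1 (Nat.le_mul_of_pos_right c hl)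
    exact mul_le_mul (this a) (this b) (by positivity) (by positivity)
  · rw [if_neg h, if_neg (fun h' => h (hiff.1 h'))]

theorem meansq_ge (M : ℕ) (hM : 0 < M) (ω : ℂ) (hω : IsPrimitiveRoot ω M) (S : Finset ℕ)
    (r : ℝ) (hr0 : 0 ≤ r) :
    M * ∑ a ∈ S, (r ^ a) ^ 2 ≤ ∑ j ∈ range M, ‖∑ a ∈ S, ((r : ℂ) * ω ^ j) ^ a‖ ^ 2 := by
  have e2 : ∀ j ∈ range M, ‖∑ a ∈ S, ((r : ℂ) * ω ^ j) ^ a‖ ^ 2 =
      ‖∑ a ∈ S, (((fun a => r ^ a) a : ℝ) : ℂ) * (ω ^ j) ^ ((fun a => a) a)‖ ^ 2 := by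
    intro j _
    congr 2
    refine Finset.sum_congr rfl fun a _ => ?_
    simp only
    rw [mul_pow]; push_cast; rfl
  rw [Finset.sum_congr rfl e2, parseval M hM ω hω S]
  refine mul_le_mul_of_nonneg_left ?_ (by positivity)
  refine Finset.sum_le_sum fun a ha => ?_
  have := Finset.single_le_sum (f := fun b => if a ≡ b [MOD M] then r ^ a * r ^ b else 0)
    (fun b _ => by split_ifs <;> positivity) ha
  rw [if_pos (Nat.ModEq.refl a)] at this
  rw [sq]
  exact this

/-- lower bound for `|1 - r ω^j|` -/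
theorem one_sub_ge (M : ℕ) (j : ℕ) (hj : 0 < j) (hjM : j < M) (r : ℝ) (hr : 1 / 2 ≤ r) :
    (‖1 - (r : ℂ) * (Complex.exp (2 * Real.pi * Complex.I / M)) ^ j‖)⁻¹ ≤ M / j + M / (M - j : ℕ) := by
  set θ : ℝ := 2 * Real.pi * j / M with hθ
  have hM : (0 : ℝ) < M := by
    have : 0 < M := by omega
    exact_mod_cast this
  have hjR : (0 : ℝ) < j := by exact_mod_cast hj
  have hMj : (0 : ℝ) < (M - j : ℕ) := by
    have : 0 < M - j := by omega
    exact_mod_cast this
  have hMjc : ((M - j : ℕ) : ℝ) = M - j := by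
    rw [Nat.cast_sub hjM.le]
  have e1 : (Complex.exp (2 * Real.pi * Complex.I / M)) ^ j = Complex.exp (θ * Complex.I) := by
    rw [← Complex.exp_nat_mul]; congr 1; rw [hθ]; push_cast; ring
  have e2 : ‖1 - (r : ℂ) * Complex.exp (θ * Complex.I)‖ ^ 2 = (1 - r) ^ 2 + 4 * r * (Real.sin (θ / 2)) ^ 2 := by
    rw [← Complex.normSq_eq_norm_sq, Complex.normSq_apply]
    have hre : (1 - (r : ℂ) * Complex.exp (θ * Complex.I)).re = 1 - r * Real.cos θ := by
      rw [Complex.exp_mul_I]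
      simp [Complex.cos_ofReal_re, Complex.sin_ofReal_re]
    have him : (1 - (r : ℂ) * Complex.exp (θ * Complex.I)).im = - (r * Real.sin θ) := by
      rw [Complex.exp_mul_I]
      simp [Complex.cos_ofReal_re, Complex.sin_ofReal_re, Complex.cos_ofReal_im, Complex.sin_ofReal_im]
    rw [hre, him]
    have h1 := Real.sin_sq_add_cos_sq θ
    have h2 : Real.cos θ = 1 - 2 * Real.sin (θ / 2) ^ 2 := by
      have := Real.cos_two_mul (θ / 2)
      rw [mul_div_cancel₀ θ (by norm_num : (2 : ℝ) ≠ 0)] at this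
      have h3 := Real.sin_sq_add_cos_sq (θ / 2)
      linarith
    have : r ^ 2 * (Real.sin θ ^ 2 + Real.cos θ ^ 2) = r ^ 2 := by rw [h1, mul_one]
    nlinarith
  rw [e1]
  -- it suffices to bound the square
  set m : ℝ := min (j : ℝ) (M - j : ℕ) with hm
  have hm0 : 0 < m := lt_min hjR hMj
  have hsin : 2 * m / M ≤ Real.sin (θ / 2) := by
    have hth : θ / 2 = Real.pi * j / M := by rw [hθ]; ring
    rw [hth]
    rcases le_total (2 * j) M with h | h
    · have h' : (2 : ℝ) * j ≤ M := by exact_mod_cast h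
      have hx : Real.pi * j / M ≤ Real.pi / 2 := by
        rw [div_le_div_iff₀ hM (by norm_num)]
        nlinarith [Real.pi_pos]
      have := Real.mul_le_sin (x := Real.pi * j / M) (by positivity) hx
      have e : 2 / Real.pi * (Real.pi * j / M) = 2 * j / M := by
        field_simp
      rw [e] at this
      refine le_trans ?_ this
      gcongr
      exact min_le_left _ _
    · have h' : (M : ℝ) ≤ 2 * j := by exact_mod_cast h
      have es : Real.sin (Real.pi * j / M) = Real.sin (Real.pi * (M - j : ℕ) / M) := by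
        rw [← Real.sin_pi_sub]
        congr 1
        rw [hMjc]; field_simp
      rw [es]
      have hx : Real.pi * (M - j : ℕ) / M ≤ Real.pi / 2 := by
        rw [div_le_div_iff₀ hM (by norm_num), hMjc]
        nlinarith [Real.pi_pos]
      have := Real.mul_le_sin (x := Real.pi * (M - j : ℕ) / M) (by positivity) hx
      have e : 2 / Real.pi * (Real.pi * (M - j : ℕ) / M) = 2 * (M - j : ℕ) / M := by
        field_simp
      rw [e] at this
      refine le_trans ?_ this
      gcongr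
      exact min_le_right _ _
  have hlow : m / M ≤ ‖1 - (r : ℂ) * Complex.exp (θ * Complex.I)‖ := by
    apply le_of_sq_le_sq _ (norm_nonneg _)
    rw [e2]
    have h2m : 0 ≤ 2 * m / M := by positivity
    have : (2 * m / M) ^ 2 ≤ Real.sin (θ / 2) ^ 2 := pow_le_pow_left₀ h2m hsin 2
    have e3 : (2 * m / M) ^ 2 = 4 * (m / M) ^ 2 := by ring
    rw [e3] at this
    nlinarith [sq_nonneg (1 - r), sq_nonneg (m / M), sq_nonneg (Real.sin (θ / 2))]
  calc (‖1 - (r : ℂ) * Complex.exp (θ * Complex.I)‖)⁻¹ ≤ (m / M)⁻¹ :=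
        inv_anti₀ (by positivity) hlow
    _ = M / m := by rw [inv_div]
    _ ≤ M / j + M / (M - j : ℕ) := by
        rcases le_total (j : ℝ) ((M - j : ℕ) : ℝ) with h | h
        · rw [hm, min_eq_left h]
          have : (0 : ℝ) ≤ M / (M - j : ℕ) := by positivity
          linarith
        · rw [hm, min_eq_right h]
          have : (0 : ℝ) ≤ M / j := by positivity
          linarith

theorem sum_inv_bound (M : ℕ) (hM : 0 < M) (r : ℝ) (hr : 1 / 2 ≤ r) (hr1 : r < 1) :
    ∑ j ∈ range M, (‖1 - (r : ℂ) * (Complex.exp (2 * Real.pi * Complex.I / M)) ^ j‖)⁻¹ ≤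
      (1 - r)⁻¹ + 2 * M * (1 + Real.log M) := by
  obtain ⟨m, rfl⟩ : ∃ m, M = m + 1 := ⟨M - 1, by omega⟩
  rw [Finset.sum_range_succ', add_comm]
  refine add_le_add ?_ ?_
  · have : (1 : ℂ) - (r : ℂ) * (Complex.exp (2 * Real.pi * Complex.I / (m + 1 : ℕ))) ^ 0 =
        ((1 - r : ℝ) : ℂ) := by push_cast; ring
    rw [this, Complex.norm_real, Real.norm_of_nonneg (by linarith)]
  · have h1 : ∀ j ∈ range m,
        (‖1 - (r : ℂ) * (Complex.exp (2 * Real.pi * Complex.I / (m + 1 : ℕ))) ^ (j + 1)‖)⁻¹ ≤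
        ((m + 1 : ℕ) : ℝ) * ((j + 1 : ℕ) : ℝ)⁻¹ + ((m + 1 : ℕ) : ℝ) * ((m - 1 - j + 1 : ℕ) : ℝ)⁻¹ := by
      intro j hj
      have hj' := mem_range.1 hj
      have := one_sub_ge (m + 1) (j + 1) (by omega) (by omega) r hr
      have e : m + 1 - (j + 1) = m - 1 - j + 1 := by omega
      rw [e] at this
      simpa [div_eq_mul_inv] using this
    refine (Finset.sum_le_sum h1).trans ?_
    rw [Finset.sum_add_distrib, ← Finset.mul_sum, ← Finset.mul_sum,
      Finset.sum_range_reflect (fun j => ((j + 1 : ℕ) : ℝ)⁻¹) m]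
    have hh : ∑ j ∈ range m, ((j + 1 : ℕ) : ℝ)⁻¹ ≤ 1 + Real.log (m + 1 : ℕ) := by
      rcases Nat.eq_zero_or_pos m with h0 | h0
      · subst h0; simp
      have h2 := harmonic_le_one_add_log m
      have e : ((harmonic m : ℚ) : ℝ) = ∑ j ∈ range m, ((j + 1 : ℕ) : ℝ)⁻¹ := by
        simp [harmonic]
      rw [e] at h2
      refine h2.trans ?_
      have : Real.log m ≤ Real.log (m + 1 : ℕ) := Real.log_le_log (by exact_mod_cast h0) (by push_cast; linarith)
      linarith
    have hm0 : (0 : ℝ) ≤ ((m + 1 : ℕ) : ℝ) := by positivity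
    nlinarith [mul_le_mul_of_nonneg_left hh hm0]



open Filter Topology

/-! ### tuples and representation functions -/

/-- weights -/
noncomputable def wt (A : Set ℕ) (z : ℂ) (a : ℕ) : ℂ := open Classical in if a ∈ A then z ^ a else 0

open Classical in
/-- number of admissible tuples with entries `< X` and sum `n` -/
noncomputable def cX (A : Set ℕ) {k : ℕ} (P : (Fin k → ℕ) → Prop) (X n : ℕ) : ℕ :=
  ((box k X).filter (fun a => P a ∧ (∀ j, a j ∈ A) ∧ ∑ j, a j = n)).card

/-- number of admissible tuples with sum `n` -/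
noncomputable def cI (A : Set ℕ) {k : ℕ} (P : (Fin k → ℕ) → Prop) (n : ℕ) : ℕ :=
  {a : Fin k → ℕ | P a ∧ (∀ j, a j ∈ A) ∧ ∑ j, a j = n}.ncard

open Classical in
/-- truncated generating function -/
noncomputable def hX (A : Set ℕ) {k : ℕ} (P : (Fin k → ℕ) → Prop) (X : ℕ) (z : ℂ) : ℂ :=
  ∑ a ∈ (box k X).filter P, ∏ j, wt A z (a j)

theorem cX_eq_cI (A : Set ℕ) {k : ℕ} (P : (Fin k → ℕ) → Prop) (X n : ℕ) (h : n < X) :
    cX A P X n = cI A P n := by
  classical
  unfold cX cI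
  rw [← Set.ncard_coe_finset]
  congr 1
  ext a
  simp only [coe_filter, mem_box, Set.mem_ofPred_eq]
  constructor
  · rintro ⟨_, h⟩; exact h
  · intro ha
    refine ⟨fun j => ?_, ha⟩
    have := Finset.single_le_sum (f := a) (fun _ _ => Nat.zero_le _) (Finset.mem_univ j)
    omega

theorem cX_le (A : Set ℕ) {k : ℕ} (P : (Fin k → ℕ) → Prop) (X n : ℕ) :
    cX A P X n ≤ (n + 1) ^ k := by
  classical
  unfold cX
  have h : (box k X).filter (fun a => P a ∧ (∀ j, a j ∈ A) ∧ ∑ j, a j = n) ⊆ box k (n + 1) := by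
    intro a ha
    simp only [mem_filter] at ha
    rw [mem_box]
    intro j
    have := Finset.single_le_sum (f := a) (fun _ _ => Nat.zero_le _) (Finset.mem_univ j)
    omega
  refine (Finset.card_le_card h).trans ?_
  simp [box, Fintype.card_piFinset]

theorem hX_eq (A : Set ℕ) {k : ℕ} (P : (Fin k → ℕ) → Prop) (X : ℕ) (z : ℂ) :
    hX A P X z = ∑' n : ℕ, (cX A P X n : ℂ) * z ^ n := by
  classical
  have h1 : hX A P X z = ∑ a ∈ (box k X).filter (fun a => P a ∧ (∀ j, a j ∈ A)), z ^ (∑ j, a j) := by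
    unfold hX
    rw [← Finset.filter_filter, Finset.sum_filter (s := (box k X).filter P)]
    refine Finset.sum_congr rfl fun a _ => ?_
    split_ifs with h
    · rw [← Finset.prod_pow_eq_pow_sum]
      refine Finset.prod_congr rfl fun j _ => ?_
      rw [wt, if_pos (h j)]
    · push Not at h
      obtain ⟨j, hj⟩ := h
      exact Finset.prod_eq_zero (Finset.mem_univ j) (by rw [wt, if_neg hj])
  rw [h1]
  rw [tsum_eq_sum (s := range (k * X + 1))]
  · rw [← Finset.sum_fiberwise_of_maps_to (g := fun a : Fin k → ℕ => ∑ j, a j) (t := range (k * X + 1))]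
    · refine Finset.sum_congr rfl fun n _ => ?_
      rw [Finset.filter_filter]
      rw [Finset.sum_congr rfl (g := fun _ => z ^ n)]
      · rw [Finset.sum_const, nsmul_eq_mul]
        congr 2
        unfold cX
        congr 1
        ext a
        simp only [mem_filter, and_assoc]
      · intro a ha
        simp only [mem_filter] at ha
        rw [ha.2.2]
    · intro a ha
      simp only [mem_filter, mem_box] at ha
      rw [mem_range]
      have : ∑ j, a j ≤ ∑ _j : Fin k, X := Finset.sum_le_sum fun j _ => (ha.1 j).le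
      simp at this
      omega
  · intro n hn
    have : cX A P X n = 0 := by
      unfold cX
      rw [Finset.card_eq_zero, Finset.filter_eq_empty_iff]
      intro a ha
      rw [mem_box] at ha
      rintro ⟨_, _, hs⟩
      have : ∑ j, a j ≤ ∑ _j : Fin k, X := Finset.sum_le_sum fun j _ => (ha j).le
      simp at this
      rw [mem_range] at hn
      omega
    rw [this]; simp

theorem summable_bound (k : ℕ) (r : ℝ) (hr0 : 0 ≤ r) (hr1 : r < 1) :
    Summable (fun n : ℕ => ((n : ℝ) + 1) ^ k * r ^ n) := by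
  have h := summable_pow_mul_geometric_of_norm_lt_one (R := ℝ) k (r := r)
    (by rwa [Real.norm_of_nonneg hr0])
  rcases eq_or_lt_of_le hr0 with h0 | h0
  · refine summable_of_ne_finset_zero (s := {0}) ?_
    intro n hn
    have : n ≠ 0 := by simpa using hn
    rw [← h0, zero_pow this, mul_zero]
  · have h2 := (summable_nat_add_iff 1).2 h
    have h3 := h2.mul_left (r⁻¹)
    refine h3.congr fun n => ?_
    push_cast
    rw [pow_succ]
    field_simp

theorem tendsto_hX (A : Set ℕ) {k : ℕ} (P : (Fin k → ℕ) → Prop) (z : ℂ) (hz : ‖z‖ < 1) :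
    Tendsto (fun X => hX A P X z) atTop (𝓝 (∑' n : ℕ, (cI A P n : ℂ) * z ^ n)) := by
  have h : (fun X => hX A P X z) = fun X => ∑' n : ℕ, (cX A P X n : ℂ) * z ^ n := by
    funext X; exact hX_eq A P X z
  rw [h]
  refine tendsto_tsum_of_dominated_convergence (bound := fun n : ℕ => ((n : ℝ) + 1) ^ k * ‖z‖ ^ n)
    (summable_bound k ‖z‖ (norm_nonneg _) hz) ?_ ?_
  · intro n
    refine tendsto_const_nhds.congr' ?_
    filter_upwards [eventually_gt_atTop n] with X hX
    rw [cX_eq_cI A P X n hX]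
  · filter_upwards with X n
    rw [norm_mul, norm_pow, Complex.norm_natCast]
    refine mul_le_mul_of_nonneg_right ?_ (by positivity)
    exact_mod_cast cX_le A P X n

theorem summable_cI (A : Set ℕ) {k : ℕ} (P : (Fin k → ℕ) → Prop) (r : ℝ) (hr0 : 0 ≤ r) (hr1 : r < 1) :
    Summable (fun n : ℕ => (cI A P n : ℝ) * r ^ n) := by
  refine Summable.of_nonneg_of_le (fun n => by positivity) (fun n => ?_) (summable_bound k r hr0 hr1)
  refine mul_le_mul_of_nonneg_right ?_ (by positivity)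
  rw [← cX_eq_cI A P (n + 1) n (Nat.lt_succ_self n)]
  exact_mod_cast cX_le A P (n + 1) n

/-! ### multiplication by `1 - z` -/

theorem mul_one_sub (h : ℕ → ℝ) (h0 : ∀ n, 0 ≤ h n) (r : ℝ) (hr0 : 0 ≤ r) (hr1 : r < 1)
    (hs : Summable fun n => h n * r ^ n) (n₀ : ℕ) (hm : ∀ n ≥ n₀, h n ≤ h (n + 1))
    (z : ℂ) (hz : ‖z‖ = r) :
    ‖1 - z‖ * ‖∑' n : ℕ, (h n : ℂ) * z ^ n‖ ≤
      (1 - r) * (∑' n : ℕ, h n * r ^ n) + 2 * ∑ n ∈ range n₀, h n := by
  have hsz : Summable fun n => (h n : ℂ) * z ^ n := by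
    refine Summable.of_norm ?_
    refine hs.congr fun n => ?_
    rw [norm_mul, norm_pow, hz, Complex.norm_real, Real.norm_of_nonneg (h0 n)]
  have hsz1 : Summable fun n => (h (n + 1) : ℂ) * z ^ (n + 1) := (summable_nat_add_iff 1).2 hsz
  have hs1 : Summable fun n => h (n + 1) * r ^ (n + 1) := (summable_nat_add_iff 1).2 hs
  have hszz : Summable fun n => (h n : ℂ) * z ^ (n + 1) := by
    refine (hsz.mul_left z).congr fun n => ?_
    rw [pow_succ]; ring
  have hsr : Summable fun n => h n * r ^ (n + 1) := by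
    refine (hs.mul_left r).congr fun n => ?_
    rw [pow_succ]; ring
  have e1 : (1 - z) * ∑' n : ℕ, (h n : ℂ) * z ^ n =
      h 0 + ∑' n : ℕ, ((h (n + 1) - h n : ℝ) : ℂ) * z ^ (n + 1) := by
    have e2 : ∑' n : ℕ, ((h (n + 1) - h n : ℝ) : ℂ) * z ^ (n + 1) =
        (∑' n : ℕ, (h (n + 1) : ℂ) * z ^ (n + 1)) - ∑' n : ℕ, (h n : ℂ) * z ^ (n + 1) := by
      rw [← hsz1.tsum_sub hszz]
      congr 1; funext n; push_cast; ring
    have e3 : ∑' n : ℕ, (h n : ℂ) * z ^ n = h 0 + ∑' n : ℕ, (h (n + 1) : ℂ) * z ^ (n + 1) := by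
      rw [hsz.tsum_eq_zero_add]; simp
    have e4 : z * ∑' n : ℕ, (h n : ℂ) * z ^ n = ∑' n : ℕ, (h n : ℂ) * z ^ (n + 1) := by
      rw [← tsum_mul_left]
      congr 1; funext n; rw [pow_succ]; ring
    rw [sub_mul, one_mul, e4, e2, e3]; ring
  have e1r : (1 - r) * ∑' n : ℕ, h n * r ^ n =
      h 0 + ∑' n : ℕ, (h (n + 1) - h n) * r ^ (n + 1) := by
    have e2 : ∑' n : ℕ, (h (n + 1) - h n) * r ^ (n + 1) =
        (∑' n : ℕ, h (n + 1) * r ^ (n + 1)) - ∑' n : ℕ, h n * r ^ (n + 1) := by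
      rw [← hs1.tsum_sub hsr]
      congr 1; funext n; ring
    have e3 : ∑' n : ℕ, h n * r ^ n = h 0 + ∑' n : ℕ, h (n + 1) * r ^ (n + 1) := by
      rw [hs.tsum_eq_zero_add]; simp
    have e4 : r * ∑' n : ℕ, h n * r ^ n = ∑' n : ℕ, h n * r ^ (n + 1) := by
      rw [← tsum_mul_left]
      congr 1; funext n; rw [pow_succ]; ring
    rw [sub_mul, one_mul, e4, e2, e3]; ring
  rw [← norm_mul, e1, e1r]
  set g : ℕ → ℝ := fun n => if n < n₀ then h n else 0 with hg
  have hgs : Summable fun n => g n * r ^ (n + 1) := by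
    refine summable_of_ne_finset_zero (s := range n₀) ?_
    intro n hn
    simp only [mem_range] at hn
    simp [hg, hn]
  have hgsum : ∑' n : ℕ, g n * r ^ (n + 1) ≤ ∑ n ∈ range n₀, h n := by
    rw [tsum_eq_sum (s := range n₀)]
    · refine Finset.sum_le_sum fun n hn => ?_
      simp only [mem_range] at hn
      simp only [hg, if_pos hn]
      exact mul_le_of_le_one_right (h0 n) (pow_le_one₀ hr0 hr1.le)
    · intro n hn
      simp only [mem_range] at hn
      simp [hg, hn]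
  have hds : Summable fun n => (h (n + 1) - h n) * r ^ (n + 1) := by
    refine (hs1.sub hsr).congr fun n => ?_
    ring
  have hbd : ∀ n, ‖((h (n + 1) - h n : ℝ) : ℂ) * z ^ (n + 1)‖ ≤
      (h (n + 1) - h n) * r ^ (n + 1) + 2 * (g n * r ^ (n + 1)) := by
    intro n
    rw [norm_mul, norm_pow, hz, Complex.norm_real, Real.norm_eq_abs]
    have : |h (n + 1) - h n| ≤ (h (n + 1) - h n) + 2 * g n := by
      by_cases hn : n < n₀
      · simp only [hg, if_pos hn]
        rw [abs_le]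
        constructor <;> linarith [h0 n, h0 (n + 1)]
      · simp only [hg, if_neg hn]
        rw [abs_of_nonneg (by linarith [hm n (by omega)])]
        linarith
    calc |h (n + 1) - h n| * r ^ (n + 1) ≤ ((h (n + 1) - h n) + 2 * g n) * r ^ (n + 1) :=
          mul_le_mul_of_nonneg_right this (by positivity)
      _ = _ := by ring
  have hbs : Summable fun n => (h (n + 1) - h n) * r ^ (n + 1) + 2 * (g n * r ^ (n + 1)) :=
    hds.add (hgs.mul_left 2)
  calc ‖(h 0 : ℂ) + ∑' n : ℕ, ((h (n + 1) - h n : ℝ) : ℂ) * z ^ (n + 1)‖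
      ≤ ‖(h 0 : ℂ)‖ + ‖∑' n : ℕ, ((h (n + 1) - h n : ℝ) : ℂ) * z ^ (n + 1)‖ := norm_add_le _ _
    _ ≤ h 0 + ∑' n : ℕ, ((h (n + 1) - h n) * r ^ (n + 1) + 2 * (g n * r ^ (n + 1))) := by
        refine add_le_add ?_ ?_
        · rw [Complex.norm_real, Real.norm_of_nonneg (h0 0)]
        · exact tsum_of_norm_bounded hbs.hasSum hbd
    _ = h 0 + ∑' n : ℕ, (h (n + 1) - h n) * r ^ (n + 1) + 2 * ∑' n : ℕ, g n * r ^ (n + 1) := by
        rw [hds.tsum_add (hgs.mul_left 2), tsum_mul_left]; ring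
    _ ≤ _ := by linarith



/-! ### the generating function of `A` on the real axis -/

noncomputable def ind (A : Set ℕ) (r : ℝ) (a : ℕ) : ℝ := open Classical in if a ∈ A then r ^ a else 0

noncomputable def GA (A : Set ℕ) (r : ℝ) : ℝ := ∑' a : ℕ, ind A r a

theorem ind_nonneg (A : Set ℕ) (r : ℝ) (hr0 : 0 ≤ r) (a : ℕ) : 0 ≤ ind A r a := by
  unfold ind; split_ifs <;> positivity

theorem ind_le (A : Set ℕ) (r : ℝ) (hr0 : 0 ≤ r) (a : ℕ) : ind A r a ≤ r ^ a := by
  unfold ind; split_ifs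
  · exact le_rfl
  · positivity

theorem summable_ind (A : Set ℕ) (r : ℝ) (hr0 : 0 ≤ r) (hr1 : r < 1) : Summable (ind A r) :=
  Summable.of_nonneg_of_le (ind_nonneg A r hr0) (ind_le A r hr0) (summable_geometric_of_lt_one hr0 hr1)

theorem norm_wt (A : Set ℕ) (z : ℂ) (a : ℕ) : ‖wt A z a‖ = ind A ‖z‖ a := by
  unfold wt ind; split_ifs <;> simp

theorem GA_nonneg (A : Set ℕ) (r : ℝ) (hr0 : 0 ≤ r) : 0 ≤ GA A r := tsum_nonneg (ind_nonneg A r hr0)

theorem norm_hX_le (A : Set ℕ) {k : ℕ} (P : (Fin k → ℕ) → Prop) (X : ℕ) (z : ℂ) (hz : ‖z‖ < 1) :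
    ‖hX A P X z‖ ≤ GA A ‖z‖ ^ k := by
  classical
  unfold hX
  refine (norm_sum_le _ _).trans ?_
  calc ∑ a ∈ (box k X).filter P, ‖∏ j, wt A z (a j)‖
      ≤ ∑ a ∈ box k X, ∏ j, ind A ‖z‖ (a j) := by
        refine (Finset.sum_le_sum_of_subset_of_nonneg (Finset.filter_subset _ _)
          fun _ _ _ => norm_nonneg _).trans (le_of_eq ?_)
        refine Finset.sum_congr rfl fun a _ => ?_
        rw [norm_prod]
        exact Finset.prod_congr rfl fun j _ => norm_wt A z _
    _ = (∑ a ∈ range X, ind A ‖z‖ a) ^ k := by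
        rw [box, ← Finset.prod_univ_sum]
        simp
    _ ≤ GA A ‖z‖ ^ k := by
        refine pow_le_pow_left₀ (Finset.sum_nonneg fun a _ => ind_nonneg A _ (norm_nonneg _) a) ?_ k
        exact (summable_ind A _ (norm_nonneg _) hz).sum_le_tsum _
          (fun a _ => ind_nonneg A _ (norm_nonneg _) a)

theorem sum_cI_le (A : Set ℕ) {k : ℕ} (P : (Fin k → ℕ) → Prop) (r : ℝ) (hr0 : 0 ≤ r) (hr1 : r < 1) :
    ∑' n : ℕ, (cI A P n : ℝ) * r ^ n ≤ GA A r ^ k := by
  have hz : ‖(r : ℂ)‖ = r := by rw [Complex.norm_real, Real.norm_of_nonneg hr0]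
  have h := (tendsto_hX A P (r : ℂ) (by rw [hz]; exact hr1)).norm
  have h2 : ‖∑' n : ℕ, (cI A P n : ℂ) * (r : ℂ) ^ n‖ ≤ GA A r ^ k := by
    refine le_of_tendsto h ?_
    filter_upwards with X
    have := norm_hX_le A P X (r : ℂ) (by rw [hz]; exact hr1)
    rwa [hz] at this
  have h3 : ∑' n : ℕ, (cI A P n : ℂ) * (r : ℂ) ^ n = ((∑' n : ℕ, (cI A P n : ℝ) * r ^ n : ℝ) : ℂ) := by
    push_cast; rfl
  rw [h3, Complex.norm_real, Real.norm_of_nonneg] at h2
  · exact h2
  · exact tsum_nonneg fun n => by positivity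

/-- the three admissible conditions on tuples -/
def Good {k : ℕ} (P : (Fin k → ℕ) → Prop) : Prop :=
  P = (fun _ => True) ∨ P = (fun a => Monotone a) ∨ P = (fun a => StrictMono a)

theorem pointwise' (A : Set ℕ) {k : ℕ} (hk : 2 ≤ k) (P : (Fin k → ℕ) → Prop) (hP : Good P) (X : ℕ)
    (z : ℂ) :
    ‖pw (wt A z) 1 X‖ ^ 2 ≤ (2 * k.factorial * ‖hX A P X z‖) ^ ((2 : ℝ) / k) +
      2 * k.factorial * (1 + ∑ l ∈ Icc 2 k, ‖pw (wt A z) l X‖) := by
  classical
  rcases hP with rfl | rfl | rfl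
  · have e : hX A (fun _ : Fin k → ℕ => True) X z = (pw (wt A z) 1 X) ^ k := by
      unfold hX pw
      rw [Finset.filter_true, box]
      simp only [pow_one]
      rw [← Finset.prod_univ_sum]
      simp
    rw [e, norm_pow]
    set x := ‖pw (wt A z) 1 X‖ with hx
    have hx0 : 0 ≤ x := norm_nonneg _
    have hk0 : (k : ℝ) ≠ 0 := by positivity
    have e2 : x ^ 2 = (x ^ k) ^ ((2 : ℝ) / k) := by
      rw [← Real.rpow_natCast x k, ← Real.rpow_mul hx0, mul_div_cancel₀ _ hk0]
      norm_num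
    have hkf : (1 : ℝ) ≤ k.factorial := by
      exact_mod_cast Nat.one_le_iff_ne_zero.2 (Nat.factorial_ne_zero k)
    have h1 : x ^ 2 ≤ (2 * k.factorial * x ^ k) ^ ((2 : ℝ) / k) := by
      rw [e2]
      refine Real.rpow_le_rpow (by positivity) ?_ (by positivity)
      have : 0 ≤ x ^ k := by positivity
      nlinarith
    have h2 : 0 ≤ ∑ l ∈ Icc 2 k, ‖pw (wt A z) l X‖ := Finset.sum_nonneg fun _ _ => norm_nonneg _
    have h3 : (0 : ℝ) ≤ 2 * k.factorial * (1 + ∑ l ∈ Icc 2 k, ‖pw (wt A z) l X‖) := by positivity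
    linarith
  · have := pointwise k hk (fun n => um (wt A z) n X) (fun l => pw (wt A z) l X) (fun _ => 1)
      (fun _ => by simp) rfl (um_zero _ X)
      (fun n => by
        have := newton_um (wt A z) X n
        rw [this]; simp)
    have e : hX A (fun a : Fin k → ℕ => Monotone a) X z = um (wt A z) k X := by
      unfold hX um; congr!
    rw [e]
    exact this
  · have := pointwise k hk (fun n => us (wt A z) n X) (fun l => pw (wt A z) l X) (fun l => (-1) ^ l)
      (fun _ => by simp) (by simp) (us_zero _ X) (fun n => newton_us (wt A z) X n)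
    have e : hX A (fun a : Fin k → ℕ => StrictMono a) X z = us (wt A z) k X := by
      unfold hX us; congr!
    rw [e]
    exact this

open Classical in
theorem pw_eq (A : Set ℕ) (z : ℂ) (l X : ℕ) (hl : 0 < l) :
    pw (wt A z) l X = ∑ a ∈ (range X).filter (· ∈ A), (z ^ a) ^ l := by
  unfold pw wt
  rw [Finset.sum_filter]
  refine Finset.sum_congr rfl fun a _ => ?_
  split_ifs with h
  · rfl
  · exact zero_pow hl.ne'

theorem rpow_le_one_add (k : ℕ) (hk : 2 ≤ k) (x : ℝ) (hx : 0 ≤ x) : x ^ ((2 : ℝ) / k) ≤ 1 + x := by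
  have hk' : (2 : ℝ) ≤ k := by exact_mod_cast hk
  have h1 : (2 : ℝ) / k ≤ 1 := by rw [div_le_one (by linarith)]; exact hk'
  rcases le_total x 1 with h | h
  · have := Real.rpow_le_one hx h (by positivity : (0 : ℝ) ≤ 2 / k)
    linarith
  · have := Real.rpow_le_rpow_of_exponent_le h h1
    rw [Real.rpow_one] at this
    linarith

/-- the mean square inequality, for a fixed radius and truncation -/
theorem core (A : Set ℕ) {k : ℕ} (hk : 2 ≤ k) (P : (Fin k → ℕ) → Prop) (hP : Good P)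
    (N : ℕ) (hN : 2 ≤ N) (r : ℝ) (hr : r = 1 - 1 / (N : ℝ)) (X : ℕ) (B : ℝ) (hB : 0 ≤ B)
    (M : ℕ) (hM : M = k.factorial * N + 1)
    (hH : ∀ j < M, ‖1 - (r : ℂ) * (Complex.exp (2 * Real.pi * Complex.I / M)) ^ j‖ *
      ‖hX A P X ((r : ℂ) * (Complex.exp (2 * Real.pi * Complex.I / M)) ^ j)‖ ≤ B) :
    ∑ a ∈ range X, (ind A r a) ^ 2 ≤
      4 * (2 * k.factorial * B) ^ ((2 : ℝ) / k) * (2 + Real.log M) +
        4 * k.factorial + (2 * k.factorial * k) ^ 2 := by
  classical
  have hNR : (2 : ℝ) ≤ N := by exact_mod_cast hN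
  have hM0 : 0 < M := by omega
  have hMR : (0 : ℝ) < M := by exact_mod_cast hM0
  have hr12 : 1 / 2 ≤ r := by
    rw [hr]
    have : 1 / (N : ℝ) ≤ 1 / 2 := one_div_le_one_div_of_le (by norm_num) hNR
    linarith
  have hr1 : r < 1 := by
    rw [hr]
    have : 0 < 1 / (N : ℝ) := by positivity
    linarith
  have hr0 : 0 ≤ r := by linarith
  have hkf1 : 1 ≤ k.factorial := Nat.one_le_iff_ne_zero.2 (Nat.factorial_ne_zero k)
  have hkf : (1 : ℝ) ≤ k.factorial := by exact_mod_cast hkf1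
  set ω : ℂ := Complex.exp (2 * Real.pi * Complex.I / M) with hω
  have hprim : IsPrimitiveRoot ω M := Complex.isPrimitiveRoot_exp M hM0.ne'
  set S : Finset ℕ := (range X).filter (· ∈ A) with hS
  set Q : ℝ := ∑ j ∈ range M, ‖∑ a ∈ S, ((r : ℂ) * ω ^ j) ^ a‖ ^ 2 with hQ
  have hQ0 : 0 ≤ Q := Finset.sum_nonneg fun _ _ => by positivity
  -- lower bound
  have hlow : M * ∑ a ∈ range X, (ind A r a) ^ 2 ≤ Q := by
    have h := meansq_ge M hM0 ω hprim S r hr0
    have e : ∑ a ∈ range X, (ind A r a) ^ 2 = ∑ a ∈ S, (r ^ a) ^ 2 := by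
      rw [hS, Finset.sum_filter]
      refine Finset.sum_congr rfl fun a _ => ?_
      unfold ind
      split_ifs <;> simp
    rw [e]; exact h
  -- the lower order terms
  have hlow2 : ∀ l ∈ Icc 2 k, ∑ j ∈ range M, ‖pw (wt A ((r : ℂ) * ω ^ j)) l X‖ ≤ √(M * Q) := by
    intro l hl
    rw [Finset.mem_Icc] at hl
    have hcop : Nat.Coprime l M := by
      have hd : l ∣ k.factorial * N := (Nat.dvd_factorial (by omega) hl.2).mul_right N
      rw [hM]
      exact (Nat.coprime_mul_left_add_right l 1 (k.factorial * N / l)).2 (Nat.coprime_one_right l) |> fun h => by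
        rwa [Nat.mul_div_cancel' hd] at h
    have h1 := meansq_le M hM0 ω hprim S r hr0 hr1.le l (by omega) hcop
    apply Real.le_sqrt_of_sq_le
    have h2 := sq_sum_le_card_mul_sum_sq (s := range M)
      (f := fun j => ‖pw (wt A ((r : ℂ) * ω ^ j)) l X‖)
    rw [Finset.card_range] at h2
    refine h2.trans (mul_le_mul_of_nonneg_left ?_ hMR.le)
    refine le_trans (le_of_eq ?_) h1
    refine Finset.sum_congr rfl fun j _ => ?_
    rw [pw_eq A _ l X (by omega)]
  -- the main term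
  have hmain : ∀ j ∈ range M, (2 * k.factorial * ‖hX A P X ((r : ℂ) * ω ^ j)‖) ^ ((2 : ℝ) / k) ≤
      (2 * k.factorial * B) ^ ((2 : ℝ) / k) * (1 + (‖1 - (r : ℂ) * ω ^ j‖)⁻¹) := by
    intro j hj
    have hj' := mem_range.1 hj
    have hne : 0 < ‖1 - (r : ℂ) * ω ^ j‖ := by
      rw [norm_pos_iff, sub_ne_zero]
      intro h
      have h2 : ‖(r : ℂ) * ω ^ j‖ = 1 := by rw [← h]; simp
      rw [norm_mul, norm_pow, hprim.norm'_eq_one hM0.ne', one_pow, mul_one, Complex.norm_real,
        Real.norm_of_nonneg hr0] at h2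
      linarith
    have h1 : ‖hX A P X ((r : ℂ) * ω ^ j)‖ ≤ B * (‖1 - (r : ℂ) * ω ^ j‖)⁻¹ := by
      rw [← div_eq_mul_inv, le_div_iff₀ hne, mul_comm]
      exact hH j hj'
    calc (2 * k.factorial * ‖hX A P X ((r : ℂ) * ω ^ j)‖) ^ ((2 : ℝ) / k)
        ≤ ((2 * k.factorial * B) * (‖1 - (r : ℂ) * ω ^ j‖)⁻¹) ^ ((2 : ℝ) / k) := by
          refine Real.rpow_le_rpow (by positivity) ?_ (by positivity)
          calc 2 * k.factorial * ‖hX A P X ((r : ℂ) * ω ^ j)‖
              ≤ 2 * k.factorial * (B * (‖1 - (r : ℂ) * ω ^ j‖)⁻¹) :=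
                mul_le_mul_of_nonneg_left h1 (by positivity)
            _ = _ := by ring
      _ = (2 * k.factorial * B) ^ ((2 : ℝ) / k) * ((‖1 - (r : ℂ) * ω ^ j‖)⁻¹) ^ ((2 : ℝ) / k) :=
          Real.mul_rpow (by positivity) (by positivity)
      _ ≤ _ := mul_le_mul_of_nonneg_left (rpow_le_one_add k hk _ (by positivity)) (by positivity)
  have hinv := sum_inv_bound M hM0 r hr12 hr1
  rw [← hω] at hinv
  have hNM : (1 - r)⁻¹ ≤ M := by
    rw [hr]
    have e : (1 - (1 - 1 / (N : ℝ)))⁻¹ = N := by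
      rw [sub_sub_cancel, one_div, inv_inv]
    rw [e, hM]
    have : N ≤ k.factorial * N + 1 := by nlinarith
    exact_mod_cast this
  have hlogM : 0 ≤ Real.log M := Real.log_nonneg (by exact_mod_cast hM0)
  set T : ℝ := (2 * k.factorial * B) ^ ((2 : ℝ) / k) with hT
  have hT0 : 0 ≤ T := by positivity
  -- sum of pointwise inequalities
  have hsum : Q ≤ T * (M + (M + 2 * M * (1 + Real.log M))) +
      2 * k.factorial * (M + k * √(M * Q)) := by
    have h1 : Q ≤ ∑ j ∈ range M, ((2 * k.factorial * ‖hX A P X ((r : ℂ) * ω ^ j)‖) ^ ((2 : ℝ) / k) +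
        2 * k.factorial * (1 + ∑ l ∈ Icc 2 k, ‖pw (wt A ((r : ℂ) * ω ^ j)) l X‖)) := by
      refine Finset.sum_le_sum fun j _ => ?_
      have := pointwise' A hk P hP X ((r : ℂ) * ω ^ j)
      rw [pw_eq A _ 1 X one_pos] at this
      simpa using this
    refine h1.trans ?_
    rw [Finset.sum_add_distrib]
    refine add_le_add ?_ ?_
    · refine (Finset.sum_le_sum hmain).trans ?_
      rw [← Finset.mul_sum, Finset.sum_add_distrib]
      refine mul_le_mul_of_nonneg_left ?_ hT0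
      simp only [Finset.sum_const, Finset.card_range, nsmul_eq_mul, mul_one]
      linarith
    · rw [← Finset.mul_sum, Finset.sum_add_distrib]
      refine mul_le_mul_of_nonneg_left ?_ (by positivity)
      simp only [Finset.sum_const, Finset.card_range, nsmul_eq_mul, mul_one]
      refine add_le_add le_rfl ?_
      rw [Finset.sum_comm]
      refine (Finset.sum_le_sum hlow2).trans ?_
      rw [Finset.sum_const, nsmul_eq_mul, Nat.card_Icc]
      refine mul_le_mul_of_nonneg_right ?_ (Real.sqrt_nonneg _)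
      exact_mod_cast (by omega : k + 1 - 2 ≤ k)
  -- absorb
  set s : ℝ := √(M * Q) with hs
  have hs2 : s * s = M * Q := Real.mul_self_sqrt (by positivity)
  set c : ℝ := 2 * k.factorial * k with hc
  have hab : 2 * (c * s) * M ≤ c ^ 2 * M ^ 2 + s * s := by
    nlinarith [sq_nonneg (c * M - s)]
  have hQ2 : Q * M ≤ (2 * T * (2 + 2 * (1 + Real.log M)) + 4 * k.factorial + c ^ 2) * M * M := by
    have h3 : Q * M ≤ (T * (M + (M + 2 * M * (1 + Real.log M))) + 2 * k.factorial * (M + k * s)) * M :=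
      mul_le_mul_of_nonneg_right hsum hMR.le
    have h4 : (T * (M + (M + 2 * M * (1 + Real.log M))) + 2 * k.factorial * (M + k * s)) * M =
        T * (2 + 2 * (1 + Real.log M)) * M * M + 2 * k.factorial * M * M + c * s * M := by
      rw [hc]; ring
    rw [h4] at h3
    nlinarith
  have hQ3 : Q ≤ (2 * T * (2 + 2 * (1 + Real.log M)) + 4 * k.factorial + c ^ 2) * M :=
    le_of_mul_le_mul_right hQ2 hMR
  have hfin := hlow.trans hQ3
  rw [mul_comm (M : ℝ)] at hfin
  have := le_of_mul_le_mul_right hfin hMR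
  refine this.trans (le_of_eq ?_)
  ring



/-! ### positivity of the representation function -/

theorem cI_pos_of_mono (A : Set ℕ) (hA : A.Infinite) {k : ℕ} (hk : 2 ≤ k) (P : (Fin k → ℕ) → Prop)
    (hP : Good P) (n₀ : ℕ) (hm : ∀ n ≥ n₀, cI A P n ≤ cI A P (n + 1)) :
    ∃ n₁, ∀ n ≥ n₁, 1 ≤ cI A P n := by
  classical
  set a : Fin k → ℕ := fun j => Nat.nth (· ∈ A) (n₀ + j.val) with ha
  have hmono : StrictMono (Nat.nth (· ∈ A)) := Nat.nth_strictMono hA
  have haA : ∀ j, a j ∈ A := fun j => Nat.nth_mem_of_infinite hA _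
  have has : StrictMono a := fun i j hij => hmono (by
    have : i.val < j.val := hij
    omega)
  have haP : P a := by
    rcases hP with rfl | rfl | rfl
    · trivial
    · exact has.monotone
    · exact has
  set n := ∑ j, a j with hn
  have hn0 : n₀ ≤ n := by
    have h1 : a ⟨0, by omega⟩ ≤ n :=
      Finset.single_le_sum (f := a) (fun _ _ => Nat.zero_le _) (Finset.mem_univ _)
    have h2 : n₀ + 0 ≤ Nat.nth (· ∈ A) (n₀ + 0) := hmono.le_apply
    simp only [ha] at h1
    simp only [Nat.add_zero] at h1 h2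
    omega
  have hpos : 1 ≤ cI A P n := by
    rw [← cX_eq_cI A P (n + 1) n (Nat.lt_succ_self n)]
    unfold cX
    rw [Nat.one_le_iff_ne_zero, Finset.card_ne_zero]
    refine ⟨a, ?_⟩
    simp only [mem_filter, mem_box]
    refine ⟨fun j => ?_, haP, haA, rfl⟩
    have := Finset.single_le_sum (f := a) (fun _ _ => Nat.zero_le _) (Finset.mem_univ j)
    omega
  refine ⟨n, fun m hmn => ?_⟩
  induction m, hmn using Nat.le_induction with
  | base => exact hpos
  | succ m hmn ih => exact ih.trans (hm m (by omega))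

theorem lower_bound (A : Set ℕ) {k : ℕ} (P : (Fin k → ℕ) → Prop)
    (n₁ : ℕ) (h1 : ∀ n ≥ n₁, 1 ≤ cI A P n) (N : ℕ) (hN : 2 ≤ N) :
    (1 / 2 : ℝ) ^ n₁ ≤ GA A (1 - 1 / (N : ℝ)) ^ k / N := by
  have hNR : (2 : ℝ) ≤ N := by exact_mod_cast hN
  set r : ℝ := 1 - 1 / (N : ℝ) with hr
  have hr12 : 1 / 2 ≤ r := by
    have : 1 / (N : ℝ) ≤ 1 / 2 := one_div_le_one_div_of_le (by norm_num) hNR
    linarith
  have hr1 : r < 1 := by
    have : 0 < 1 / (N : ℝ) := by positivity
    linarith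
  have hr0 : 0 ≤ r := by linarith
  have h2 := sum_cI_le A P r hr0 hr1
  have hs := summable_cI A P r hr0 hr1
  have h3 : r ^ n₁ * N ≤ ∑' n : ℕ, (cI A P n : ℝ) * r ^ n := by
    have h4 : ∑' n : ℕ, r ^ (n + n₁) = r ^ n₁ * N := by
      have : (fun n : ℕ => r ^ (n + n₁)) = fun n => r ^ n₁ * r ^ n := by
        funext n; rw [pow_add, mul_comm]
      rw [this, tsum_mul_left, tsum_geometric_of_lt_one hr0 hr1]
      congr 1
      rw [hr, sub_sub_cancel, one_div, inv_inv]
    rw [← h4, ← hs.sum_add_tsum_nat_add n₁]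
    have h5 : ∑' n : ℕ, r ^ (n + n₁) ≤ ∑' n : ℕ, (cI A P (n + n₁) : ℝ) * r ^ (n + n₁) := by
      refine Summable.tsum_le_tsum (fun n => ?_) ?_ ?_
      · have h6 : (1 : ℝ) ≤ cI A P (n + n₁) := by exact_mod_cast h1 (n + n₁) (by omega)
        have h7 : 0 ≤ r ^ (n + n₁) := by positivity
        nlinarith
      · exact (summable_nat_add_iff n₁).2 (summable_geometric_of_lt_one hr0 hr1)
      · exact (summable_nat_add_iff n₁).2 hs
    have h8 : 0 ≤ ∑ n ∈ range n₁, (cI A P n : ℝ) * r ^ n :=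
      Finset.sum_nonneg fun _ _ => by positivity
    linarith
  rw [le_div_iff₀ (by positivity)]
  have h9 : (1 / 2 : ℝ) ^ n₁ ≤ r ^ n₁ := pow_le_pow_left₀ (by norm_num) hr12 n₁
  have : (1 / 2 : ℝ) ^ n₁ * N ≤ r ^ n₁ * N := mul_le_mul_of_nonneg_right h9 (by positivity)
  linarith

/-! ### the main inequality -/

theorem main_ineq (A : Set ℕ) {k : ℕ} (hk : 2 ≤ k) (P : (Fin k → ℕ) → Prop)
    (hP : Good P) (n₀ : ℕ) (hm : ∀ n ≥ n₀, cI A P n ≤ cI A P (n + 1))
    (n₁ : ℕ) (h1 : ∀ n ≥ n₁, 1 ≤ cI A P n) :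
    ∃ C : ℝ, 0 ≤ C ∧ ∀ N : ℕ, 2 ≤ N →
      ∑' a : ℕ, (ind A (1 - 1 / (N : ℝ)) a) ^ 2 ≤
        C * (GA A (1 - 1 / (N : ℝ)) ^ k / N) ^ ((2 : ℝ) / k) * (1 + Real.log N) := by
  set C₁ : ℝ := 2 * ∑ n ∈ range n₀, (cI A P n : ℝ) with hC₁
  have hC₁0 : 0 ≤ C₁ := by positivity
  set c₁ : ℝ := (1 / 2 : ℝ) ^ n₁ with hc₁
  have hc₁0 : 0 < c₁ := by positivity
  set K₁ : ℝ := 1 + (C₁ + 2) / c₁ with hK₁
  have hK₁0 : 0 ≤ K₁ := by positivity
  set K₂ : ℝ := 4 * k.factorial + (2 * k.factorial * k) ^ 2 with hK₂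
  have hK₂0 : 0 ≤ K₂ := by positivity
  set K₃ : ℝ := 2 + Real.log (k.factorial + 1) with hK₃
  have hK₃0 : 0 ≤ K₃ := by
    have : 0 ≤ Real.log (k.factorial + 1) := Real.log_nonneg (by
      have : (0 : ℝ) ≤ k.factorial := by positivity
      linarith)
    positivity
  refine ⟨4 * (2 * k.factorial * K₁) ^ ((2 : ℝ) / k) * K₃ + K₂ * (1 / c₁) ^ ((2 : ℝ) / k), by positivity, ?_⟩
  intro N hN
  have hNR : (2 : ℝ) ≤ N := by exact_mod_cast hN
  set r : ℝ := 1 - 1 / (N : ℝ) with hr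
  have hr12 : 1 / 2 ≤ r := by
    have : 1 / (N : ℝ) ≤ 1 / 2 := one_div_le_one_div_of_le (by norm_num) hNR
    linarith
  have hr1 : r < 1 := by
    have : 0 < 1 / (N : ℝ) := by positivity
    linarith
  have hr0 : 0 ≤ r := by linarith
  set y : ℝ := GA A r ^ k / N with hy
  have hylow : c₁ ≤ y := lower_bound A P n₁ h1 N hN
  have hy0 : 0 < y := lt_of_lt_of_le hc₁0 hylow
  have h1r : 1 - r = 1 / N := by rw [hr]; ring
  set B : ℝ := y + C₁ + 2 with hB
  have hB0 : 0 ≤ B := by positivity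
  set M : ℕ := k.factorial * N + 1 with hM
  have hM0 : 0 < M := by omega
  set ω : ℂ := Complex.exp (2 * Real.pi * Complex.I / M) with hω
  have hprim : IsPrimitiveRoot ω M := Complex.isPrimitiveRoot_exp M hM0.ne'
  have hz : ∀ j : ℕ, ‖(r : ℂ) * ω ^ j‖ = r := by
    intro j
    rw [norm_mul, norm_pow, hprim.norm'_eq_one hM0.ne', one_pow, mul_one, Complex.norm_real,
        Real.norm_of_nonneg hr0]
  have hone : ∀ j : ℕ, ‖1 - (r : ℂ) * ω ^ j‖ ≤ 2 := by
    intro j
    refine (norm_sub_le _ _).trans ?_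
    rw [hz]; simp; linarith
  -- eventually in `X`
  have hev : ∀ᶠ X in atTop, ∀ j < M, ‖1 - (r : ℂ) * ω ^ j‖ * ‖hX A P X ((r : ℂ) * ω ^ j)‖ ≤ B := by
    have h : ∀ j ∈ range M, ∀ᶠ X in atTop,
        ‖1 - (r : ℂ) * ω ^ j‖ * ‖hX A P X ((r : ℂ) * ω ^ j)‖ ≤ B := by
      intro j _
      have ht := (tendsto_hX A P ((r : ℂ) * ω ^ j) (by rw [hz]; exact hr1)).norm
      have hlt : ‖∑' n : ℕ, (cI A P n : ℂ) * ((r : ℂ) * ω ^ j) ^ n‖ <
        ‖∑' n : ℕ, (cI A P n : ℂ) * ((r : ℂ) * ω ^ j) ^ n‖ + 1 := by linarith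
      filter_upwards [ht.eventually (gt_mem_nhds hlt)] with X hXlt
      have hmul := mul_one_sub (fun n => (cI A P n : ℝ)) (fun n => by positivity) r hr0 hr1
        (summable_cI A P r hr0 hr1) n₀ (fun n hn => by exact_mod_cast hm n hn) ((r : ℂ) * ω ^ j) (hz j)
      have hGA := sum_cI_le A P r hr0 hr1
      have h5 : (1 - r) * ∑' n : ℕ, (cI A P n : ℝ) * r ^ n ≤ y := by
        rw [h1r, hy, one_div, inv_mul_eq_div]
        gcongr
      have h6 : ‖1 - (r : ℂ) * ω ^ j‖ * ‖∑' n : ℕ, (cI A P n : ℂ) * ((r : ℂ) * ω ^ j) ^ n‖ ≤ y + C₁ := by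
        have e : ∑' n : ℕ, (cI A P n : ℂ) * ((r : ℂ) * ω ^ j) ^ n =
            ∑' n : ℕ, (((cI A P n : ℝ)) : ℂ) * ((r : ℂ) * ω ^ j) ^ n := by push_cast; rfl
        rw [e]
        refine hmul.trans ?_
        linarith
      calc ‖1 - (r : ℂ) * ω ^ j‖ * ‖hX A P X ((r : ℂ) * ω ^ j)‖
          ≤ ‖1 - (r : ℂ) * ω ^ j‖ * (‖∑' n : ℕ, (cI A P n : ℂ) * ((r : ℂ) * ω ^ j) ^ n‖ + 1) :=
            mul_le_mul_of_nonneg_left hXlt.le (norm_nonneg _)
        _ = ‖1 - (r : ℂ) * ω ^ j‖ * ‖∑' n : ℕ, (cI A P n : ℂ) * ((r : ℂ) * ω ^ j) ^ n‖ +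
            ‖1 - (r : ℂ) * ω ^ j‖ := by ring
        _ ≤ (y + C₁) + 2 := add_le_add h6 (hone j)
        _ = B := by rw [hB]
    have h2 := (Filter.eventually_all_finset (range M)).2 h
    filter_upwards [h2] with X hX j hj
    exact hX j (mem_range.2 hj)
  have hsummable : Summable fun a => (ind A r a) ^ 2 := by
    refine Summable.of_nonneg_of_le (fun a => by positivity) (fun a => ?_) (summable_ind A r hr0 hr1)
    have h0 := ind_nonneg A r hr0 a
    have h2 : ind A r a ≤ 1 := (ind_le A r hr0 a).trans (pow_le_one₀ hr0 hr1.le)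
    nlinarith
  have hlim := hsummable.hasSum.tendsto_sum_nat
  have hbound : ∑' a : ℕ, (ind A r a) ^ 2 ≤ 4 * (2 * k.factorial * B) ^ ((2 : ℝ) / k) * (2 + Real.log M) +
        4 * k.factorial + (2 * k.factorial * k) ^ 2 := by
    refine le_of_tendsto hlim ?_
    filter_upwards [hev] with X hX
    exact core A hk P hP N hN r hr X B hB0 M hM hX
  refine hbound.trans ?_
  -- final estimates
  have hlogN : 0 ≤ Real.log N := Real.log_nonneg (by linarith)
  have hBy : B ≤ K₁ * y := by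
    have h3 : C₁ + 2 ≤ (C₁ + 2) / c₁ * y := by
      rw [div_mul_eq_mul_div, le_div_iff₀ hc₁0]
      exact mul_le_mul_of_nonneg_left hylow (by positivity)
    rw [hB, hK₁]; linarith
  have hT1 : (2 * k.factorial * B) ^ ((2 : ℝ) / k) ≤
      (2 * k.factorial * K₁) ^ ((2 : ℝ) / k) * y ^ ((2 : ℝ) / k) := by
    rw [← Real.mul_rpow (by positivity) hy0.le]
    refine Real.rpow_le_rpow (by positivity) ?_ (by positivity)
    calc 2 * k.factorial * B ≤ 2 * k.factorial * (K₁ * y) :=
          mul_le_mul_of_nonneg_left hBy (by positivity)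
      _ = _ := by ring
  have hT2 : 1 ≤ (1 / c₁) ^ ((2 : ℝ) / k) * y ^ ((2 : ℝ) / k) := by
    rw [← Real.mul_rpow (by positivity) hy0.le]
    refine Real.one_le_rpow ?_ (by positivity)
    rw [one_div, inv_mul_eq_div, one_le_div hc₁0]
    exact hylow
  have hlogM : Real.log M ≤ Real.log (k.factorial + 1) + Real.log N := by
    rw [← Real.log_mul (by positivity) (by positivity)]
    refine Real.log_le_log (by exact_mod_cast hM0) ?_
    rw [hM]; push_cast; nlinarith
  have hL : 2 + Real.log M ≤ K₃ * (1 + Real.log N) := by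
    rw [hK₃]
    have : 0 ≤ Real.log ((k.factorial : ℝ) + 1) := Real.log_nonneg (by
      have : (0 : ℝ) ≤ k.factorial := by positivity
      linarith)
    nlinarith
  have hL0 : 0 ≤ 2 + Real.log M := by
    have : 0 ≤ Real.log M := Real.log_nonneg (by exact_mod_cast hM0)
    linarith
  have hyk0 : 0 ≤ y ^ ((2 : ℝ) / k) := by positivity
  have hA1 : 4 * (2 * k.factorial * B) ^ ((2 : ℝ) / k) * (2 + Real.log M) ≤
      4 * ((2 * k.factorial * K₁) ^ ((2 : ℝ) / k) * y ^ ((2 : ℝ) / k)) * (K₃ * (1 + Real.log N)) :=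
    mul_le_mul (mul_le_mul_of_nonneg_left hT1 (by norm_num)) hL hL0 (by positivity)
  have hA2 : K₂ ≤ K₂ * ((1 / c₁) ^ ((2 : ℝ) / k) * y ^ ((2 : ℝ) / k)) * (1 + Real.log N) := by
    have h3 : 1 ≤ ((1 / c₁) ^ ((2 : ℝ) / k) * y ^ ((2 : ℝ) / k)) * (1 + Real.log N) := by
      nlinarith
    rw [mul_assoc]
    exact le_mul_of_one_le_right hK₂0 h3
  calc 4 * (2 * k.factorial * B) ^ ((2 : ℝ) / k) * (2 + Real.log M) +
        4 * k.factorial + (2 * k.factorial * k) ^ 2
      = 4 * (2 * k.factorial * B) ^ ((2 : ℝ) / k) * (2 + Real.log M) + K₂ := by rw [hK₂]; ring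
    _ ≤ 4 * ((2 * k.factorial * K₁) ^ ((2 : ℝ) / k) * y ^ ((2 : ℝ) / k)) * (K₃ * (1 + Real.log N)) +
        K₂ * ((1 / c₁) ^ ((2 : ℝ) / k) * y ^ ((2 : ℝ) / k)) * (1 + Real.log N) := add_le_add hA1 hA2
    _ = _ := by ring

/-! ### iteration of the exponent -/

def Pb (A : Set ℕ) (β : ℝ) : Prop :=
  ∃ C : ℝ, 0 ≤ C ∧ ∀ N : ℕ, 1 ≤ N → GA A (1 - 1 / (N : ℝ)) ≤ C * (N : ℝ) ^ β

theorem step (A : Set ℕ) {k : ℕ} (hk : 2 ≤ k)
    (hmain : ∃ C : ℝ, 0 ≤ C ∧ ∀ N : ℕ, 2 ≤ N →
      ∑' a : ℕ, (ind A (1 - 1 / (N : ℝ)) a) ^ 2 ≤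
        C * (GA A (1 - 1 / (N : ℝ)) ^ k / N) ^ ((2 : ℝ) / k) * (1 + Real.log N))
    (β δ : ℝ) (hδ : 0 < δ) (hb : Pb A β) : Pb A (2 * β - 2 / k + δ) := by
  obtain ⟨C, hC0, hC⟩ := hmain
  obtain ⟨C', hC'0, hC'⟩ := hb
  refine ⟨C * C' ^ 2 * (1 + 1 / δ) * (2 : ℝ) ^ (2 * β - 2 / k + δ), by positivity, ?_⟩
  intro N hN
  have hNR : (1 : ℝ) ≤ N := by exact_mod_cast hN
  have h2N : 2 ≤ 2 * N := by omega
  have hx1 : (1 : ℝ) ≤ ((2 * N : ℕ) : ℝ) := by push_cast; linarith
  have hx0 : (0 : ℝ) < ((2 * N : ℕ) : ℝ) := by linarith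
  have h1 := hC (2 * N) h2N
  have h2 := hC' (2 * N) (by omega)
  set x : ℝ := ((2 * N : ℕ) : ℝ) with hx
  have hxN : x = 2 * N := by rw [hx]; push_cast; ring
  have hr0 : 0 ≤ 1 - 1 / x := by
    rw [sub_nonneg, div_le_one hx0]; exact hx1
  have hr1 : 1 - 1 / x < 1 := by
    have : 0 < 1 / x := by positivity
    linarith
  have hN0 : 0 ≤ 1 - 1 / (N : ℝ) := by
    rw [sub_nonneg, div_le_one (by linarith)]; exact hNR
  have hN1 : 1 - 1 / (N : ℝ) < 1 := by
    have : 0 < 1 / (N : ℝ) := by positivity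
    linarith
  -- comparison of `GA (1-1/N)` and the mean square at `2N`
  have hcmp : GA A (1 - 1 / (N : ℝ)) ≤ ∑' a : ℕ, (ind A (1 - 1 / x) a) ^ 2 := by
    unfold GA
    refine Summable.tsum_le_tsum (fun a => ?_) (summable_ind A _ hN0 hN1) ?_
    · unfold ind
      split_ifs with h
      · rw [← pow_mul, mul_comm, pow_mul]
        refine pow_le_pow_left₀ hN0 ?_ a
        rw [hxN]
        have e : (1 - 1 / (2 * (N : ℝ))) ^ 2 = 1 - 1 / N + (1 / (2 * (N : ℝ))) ^ 2 := by
          field_simp; ring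
        rw [e]
        have : 0 ≤ (1 / (2 * (N : ℝ))) ^ 2 := by positivity
        linarith
      · simp
    · refine Summable.of_nonneg_of_le (fun a => by positivity) (fun a => ?_) (summable_ind A _ hr0 hr1)
      have h0 := ind_nonneg A _ hr0 a
      have h3 : ind A (1 - 1 / x) a ≤ 1 := (ind_le A _ hr0 a).trans (pow_le_one₀ hr0 hr1.le)
      nlinarith
  refine hcmp.trans (h1.trans ?_)
  set G : ℝ := GA A (1 - 1 / x) with hG
  have hG0 : 0 ≤ G := GA_nonneg A _ hr0
  have hk0 : (k : ℝ) ≠ 0 := by positivity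
  have e1 : (G ^ k / x) ^ ((2 : ℝ) / k) = G ^ 2 / x ^ ((2 : ℝ) / k) := by
    rw [Real.div_rpow (by positivity) hx0.le]
    congr 1
    rw [← Real.rpow_natCast G k, ← Real.rpow_mul hG0, mul_div_cancel₀ _ hk0]
    norm_num
  have h3 : (G ^ k / x) ^ ((2 : ℝ) / k) ≤ C' ^ 2 * x ^ (2 * β - 2 / k) := by
    rw [e1, div_le_iff₀ (by positivity)]
    have : G ^ 2 ≤ (C' * x ^ β) ^ 2 := pow_le_pow_left₀ hG0 h2 2
    refine this.trans (le_of_eq ?_)
    rw [mul_assoc, ← Real.rpow_add hx0, mul_pow, ← Real.rpow_natCast (x ^ β) 2, ← Real.rpow_mul hx0.le]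
    congr 2
    push_cast; ring
  have hlog : 1 + Real.log x ≤ (1 + 1 / δ) * x ^ δ := by
    have h4 := Real.log_le_rpow_div hx0.le hδ
    have h5 : 1 ≤ x ^ δ := Real.one_le_rpow hx1 hδ.le
    have : (1 + 1 / δ) * x ^ δ = x ^ δ + x ^ δ / δ := by ring
    linarith
  have hlog0 : 0 ≤ 1 + Real.log x := by
    have := Real.log_nonneg hx1
    linarith
  calc C * (G ^ k / x) ^ ((2 : ℝ) / k) * (1 + Real.log x)
      ≤ C * (C' ^ 2 * x ^ (2 * β - 2 / k)) * ((1 + 1 / δ) * x ^ δ) :=
        mul_le_mul (mul_le_mul_of_nonneg_left h3 hC0) hlog hlog0 (by positivity)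
    _ = C * C' ^ 2 * (1 + 1 / δ) * (x ^ (2 * β - 2 / k) * x ^ δ) := by ring
    _ = C * C' ^ 2 * (1 + 1 / δ) * x ^ (2 * β - 2 / k + δ) := by rw [← Real.rpow_add hx0]
    _ = C * C' ^ 2 * (1 + 1 / δ) * (2 : ℝ) ^ (2 * β - 2 / k + δ) * (N : ℝ) ^ (2 * β - 2 / k + δ) := by
        rw [hxN, Real.mul_rpow (by norm_num) (by linarith)]; ring

theorem Pb_ge (A : Set ℕ) {k : ℕ} (hk : 2 ≤ k) (P : (Fin k → ℕ) → Prop)
    (n₁ : ℕ) (h1 : ∀ n ≥ n₁, 1 ≤ cI A P n) (β : ℝ) (hb : Pb A β) : 1 / (k : ℝ) ≤ β := by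
  by_contra hlt
  push Not at hlt
  obtain ⟨C, hC0, hC⟩ := hb
  have hk0 : (0 : ℝ) < k := by positivity
  have hneg : β * k - 1 < 0 := by
    have := mul_lt_mul_of_pos_right hlt hk0
    rw [one_div, inv_mul_cancel₀ hk0.ne'] at this
    linarith
  -- `c₁ ≤ C^k N^(βk-1)`
  have h2 : ∀ᶠ N : ℕ in atTop, (1 / 2 : ℝ) ^ n₁ ≤ C ^ k * (N : ℝ) ^ (β * k - 1) := by
    filter_upwards [eventually_ge_atTop 2] with N hN
    have hNR : (2 : ℝ) ≤ N := by exact_mod_cast hN
    have hN0 : (0 : ℝ) < N := by linarith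
    have h3 := lower_bound A P n₁ h1 N hN
    have h4 := hC N (by omega)
    have hG0 : 0 ≤ GA A (1 - 1 / (N : ℝ)) := by
      refine GA_nonneg A _ ?_
      rw [sub_nonneg, div_le_one hN0]; linarith
    refine h3.trans ?_
    rw [div_le_iff₀ hN0]
    refine (pow_le_pow_left₀ hG0 h4 k).trans (le_of_eq ?_)
    rw [mul_pow, mul_assoc, ← Real.rpow_natCast ((N : ℝ) ^ β) k, ← Real.rpow_mul hN0.le]
    congr 1
    have : (N : ℝ) ^ (β * k - 1) * N = (N : ℝ) ^ (β * k - 1 + 1) := by
      rw [Real.rpow_add hN0, Real.rpow_one]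
    rw [this]; congr 1; ring
  have h5 : Tendsto (fun N : ℕ => C ^ k * (N : ℝ) ^ (β * k - 1)) atTop (𝓝 (C ^ k * 0)) := by
    refine Tendsto.const_mul _ ?_
    have := (tendsto_rpow_neg_atTop (y := 1 - β * k) (by linarith)).comp tendsto_natCast_atTop_atTop
    refine this.congr fun N => ?_
    simp only [Function.comp]
    congr 1; ring
  rw [mul_zero] at h5
  have h6 := ge_of_tendsto h5 h2
  have : (0 : ℝ) < (1 / 2 : ℝ) ^ n₁ := by positivity
  linarith

theorem no_Pb (A : Set ℕ) (hA : A.Infinite) {k : ℕ} (hk : 2 ≤ k) (P : (Fin k → ℕ) → Prop)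
    (hP : Good P) (n₀ : ℕ) (hm : ∀ n ≥ n₀, cI A P n ≤ cI A P (n + 1)) (β : ℝ) (hβ : β < 2 / k) :
    ¬ Pb A β := by
  intro hb
  obtain ⟨n₁, h1⟩ := cI_pos_of_mono A hA hk P hP n₀ hm
  have hmain := main_ineq A hk P hP n₀ hm n₁ h1
  set η : ℝ := 2 / k - β with hη
  have hη0 : 0 < η := by rw [hη]; linarith
  have hall : ∀ j : ℕ, Pb A (2 / k - (3 / 2 : ℝ) ^ j * η) := by
    intro j
    induction j with
    | zero =>
      have : (2 : ℝ) / k - (3 / 2 : ℝ) ^ 0 * η = β := by rw [hη]; ring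
      rw [this]; exact hb
    | succ j ih =>
      have h2 := step A hk hmain _ ((3 / 2 : ℝ) ^ j * η / 2) (by positivity) ih
      have : 2 * (2 / (k : ℝ) - (3 / 2 : ℝ) ^ j * η) - 2 / k + (3 / 2 : ℝ) ^ j * η / 2 =
          2 / k - (3 / 2 : ℝ) ^ (j + 1) * η := by rw [pow_succ]; ring
      rwa [this] at h2
  obtain ⟨j, hj⟩ := pow_unbounded_of_one_lt (2 / (k : ℝ) / η) (by norm_num : (1 : ℝ) < 3 / 2)
  have h3 := Pb_ge A hk P n₁ h1 _ (hall j)
  rw [div_lt_iff₀ hη0] at hj
  have hk0 : (0 : ℝ) < k := by positivity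
  have : 0 < 1 / (k : ℝ) := by positivity
  linarith

/-! ### from the counting function to the generating function -/


open Classical in
theorem card_le_count (A : Set ℕ) (n : ℕ) : ((range (n + 1)).filter (· ∈ A)).card ≤ 1 + count A n := by
  have h : ((range (n + 1)).filter (· ∈ A)) ⊆ {0} ∪ (Finset.Ioc 0 n).filter (· ∈ A) := by
    intro a ha
    simp only [mem_filter, mem_range, mem_union, Finset.mem_singleton, Finset.mem_Ioc] at ha ⊢
    rcases Nat.eq_zero_or_pos a with h | h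
    · left; exact h
    · right; exact ⟨⟨h, by omega⟩, ha.2⟩
  have e : count A n = ((Finset.Ioc 0 n).filter (· ∈ A)).card := by
    unfold count
    rw [← Set.ncard_coe_finset]
    congr 1
    ext a
    simp only [Set.mem_inter_iff, Set.mem_Ioc, coe_filter, Finset.mem_Ioc, Set.mem_ofPred_eq]
    tauto
  rw [e]
  refine (Finset.card_le_card h).trans ((Finset.card_union_le _ _).trans ?_)
  simp

open Classical in
theorem abel (A : Set ℕ) (r : ℝ) (X : ℕ) :
    ∑ a ∈ range X, ind A r a = (((range X).filter (· ∈ A)).card : ℝ) * r ^ X +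
      (1 - r) * ∑ n ∈ range X, (((range (n + 1)).filter (· ∈ A)).card : ℝ) * r ^ n := by
  induction X with
  | zero => simp
  | succ X ih =>
    rw [Finset.sum_range_succ, Finset.sum_range_succ _ X, ih]
    have h : (((range (X + 1)).filter (· ∈ A)).card : ℝ) =
        (((range X).filter (· ∈ A)).card : ℝ) + if X ∈ A then 1 else 0 := by
      rw [Finset.range_add_one, Finset.filter_insert]
      split_ifs with h
      · rw [Finset.card_insert_of_notMem (by simp)]; push_cast; ring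
      · simp
    rw [h]
    unfold ind
    split_ifs <;> ring

theorem Pb_of_cnt (A : Set ℕ) (β : ℝ) (hβ0 : 0 < β) (hβ1 : β ≤ 1) (C : ℝ) (hC0 : 0 ≤ C)
    (hC : ∀ n : ℕ, 1 ≤ n → (count A n : ℝ) ≤ C * (n : ℝ) ^ β) : Pb A β := by
  classical
  refine ⟨1 + 2 * C, by positivity, ?_⟩
  intro N hN
  have hNR : (1 : ℝ) ≤ N := by exact_mod_cast hN
  have hN0 : (0 : ℝ) < N := by linarith
  set r : ℝ := 1 - 1 / (N : ℝ) with hr
  have hr0 : 0 ≤ r := by
    rw [hr, sub_nonneg, div_le_one hN0]; exact hNR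
  have hr1 : r < 1 := by
    have : 0 < 1 / (N : ℝ) := by positivity
    linarith
  have h1r : 1 - r = 1 / N := by rw [hr]; ring
  have hNβ : 1 ≤ (N : ℝ) ^ β := Real.one_le_rpow hNR hβ0.le
  -- bound for the counts
  have hcard : ∀ n : ℕ, (((range (n + 1)).filter (· ∈ A)).card : ℝ) ≤
      1 + C * (N : ℝ) ^ β * (1 + n / N) := by
    intro n
    rcases Nat.eq_zero_or_pos n with h0 | h0
    · subst h0
      have : ((range (0 + 1)).filter (· ∈ A)).card ≤ 1 := by
        refine (Finset.card_filter_le _ _).trans ?_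
        simp
      have h2 : (((range (0 + 1)).filter (· ∈ A)).card : ℝ) ≤ 1 := by exact_mod_cast this
      have h3 : 0 ≤ C * (N : ℝ) ^ β * (1 + ((0 : ℕ) : ℝ) / N) := by positivity
      linarith
    · have h2 : (((range (n + 1)).filter (· ∈ A)).card : ℝ) ≤ 1 + (count A n : ℝ) := by
        exact_mod_cast card_le_count A n
      have h3 := hC n h0
      have hn0 : (0 : ℝ) < n := by exact_mod_cast h0
      have h4 : (n : ℝ) ^ β ≤ (N : ℝ) ^ β * (1 + n / N) := by
        rcases le_total n N with h | h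
        · have h' : (n : ℝ) ≤ N := by exact_mod_cast h
          have h5 : (n : ℝ) ^ β ≤ (N : ℝ) ^ β := Real.rpow_le_rpow hn0.le h' hβ0.le
          have h6 : 0 ≤ (N : ℝ) ^ β * (n / N) := by positivity
          nlinarith
        · have h' : (N : ℝ) ≤ n := by exact_mod_cast h
          have h5 : (1 : ℝ) ≤ n / N := by rw [one_le_div hN0]; exact h'
          have h6 : ((n : ℝ) / N) ^ β ≤ n / N := by
            have := Real.rpow_le_rpow_of_exponent_le h5 hβ1
            rwa [Real.rpow_one] at this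
          have h7 : (n : ℝ) ^ β = (N : ℝ) ^ β * ((n : ℝ) / N) ^ β := by
            rw [← Real.mul_rpow hN0.le (by positivity), mul_div_cancel₀ _ hN0.ne']
          rw [h7]
          refine mul_le_mul_of_nonneg_left ?_ (by positivity)
          linarith
      have h5 : C * (n : ℝ) ^ β ≤ C * ((N : ℝ) ^ β * (1 + n / N)) := mul_le_mul_of_nonneg_left h4 hC0
      linarith
  -- the limit
  have hlim := (summable_ind A r hr0 hr1).hasSum.tendsto_sum_nat
  have hgeo := hasSum_geometric_of_lt_one hr0 hr1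
  have hgeo2 := hasSum_coe_mul_geometric_of_norm_lt_one (𝕜 := ℝ) (r := r)
    (by rwa [Real.norm_of_nonneg hr0])
  have hpart : ∀ X : ℕ, (1 - r) * ∑ n ∈ range X, (((range (n + 1)).filter (· ∈ A)).card : ℝ) * r ^ n ≤
      1 + 2 * C * (N : ℝ) ^ β := by
    intro X
    have h2 : ∑ n ∈ range X, (((range (n + 1)).filter (· ∈ A)).card : ℝ) * r ^ n ≤
        (1 + C * (N : ℝ) ^ β) * (1 - r)⁻¹ + C * (N : ℝ) ^ β / N * (r / (1 - r) ^ 2) := by
      calc ∑ n ∈ range X, (((range (n + 1)).filter (· ∈ A)).card : ℝ) * r ^ n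
          ≤ ∑ n ∈ range X, ((1 + C * (N : ℝ) ^ β) * r ^ n + C * (N : ℝ) ^ β / N * (n * r ^ n)) := by
            refine Finset.sum_le_sum fun n _ => ?_
            calc (((range (n + 1)).filter (· ∈ A)).card : ℝ) * r ^ n
                ≤ (1 + C * (N : ℝ) ^ β * (1 + n / N)) * r ^ n :=
                  mul_le_mul_of_nonneg_right (hcard n) (by positivity)
              _ = _ := by ring
        _ = (1 + C * (N : ℝ) ^ β) * ∑ n ∈ range X, r ^ n +
            C * (N : ℝ) ^ β / N * ∑ n ∈ range X, ((n : ℝ) * r ^ n) := by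
            rw [Finset.sum_add_distrib, Finset.mul_sum, Finset.mul_sum]
        _ ≤ _ := by
            refine add_le_add (mul_le_mul_of_nonneg_left ?_ (by positivity))
              (mul_le_mul_of_nonneg_left ?_ (by positivity))
            · exact sum_le_hasSum _ (fun _ _ => by positivity) hgeo
            · exact sum_le_hasSum _ (fun _ _ => by positivity) hgeo2
    have h3 : (1 - r) * ((1 + C * (N : ℝ) ^ β) * (1 - r)⁻¹ + C * (N : ℝ) ^ β / N * (r / (1 - r) ^ 2)) ≤
        1 + 2 * C * (N : ℝ) ^ β := by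
      rw [h1r]
      have e : 1 / (N : ℝ) * ((1 + C * (N : ℝ) ^ β) * (1 / (N : ℝ))⁻¹ +
          C * (N : ℝ) ^ β / N * (r / (1 / (N : ℝ)) ^ 2)) = 1 + C * (N : ℝ) ^ β + C * (N : ℝ) ^ β * r := by
        field_simp
      rw [e]
      have : C * (N : ℝ) ^ β * r ≤ C * (N : ℝ) ^ β * 1 := mul_le_mul_of_nonneg_left hr1.le (by positivity)
      linarith
    have := mul_le_mul_of_nonneg_left h2 (by linarith : 0 ≤ 1 - r)
    linarith
  have hzero : Tendsto (fun X : ℕ => (X : ℝ) * r ^ X) atTop (𝓝 0) :=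
    tendsto_self_mul_const_pow_of_lt_one hr0 hr1
  have hle : ∀ X : ℕ, ∑ a ∈ range X, ind A r a ≤ X * r ^ X + (1 + 2 * C * (N : ℝ) ^ β) := by
    intro X
    rw [abel]
    refine add_le_add (mul_le_mul_of_nonneg_right ?_ (by positivity)) (hpart X)
    have : ((range X).filter (· ∈ A)).card ≤ X := by
      simpa using Finset.card_filter_le (range X) (· ∈ A)
    exact_mod_cast this
  have h4 : GA A r ≤ 0 + (1 + 2 * C * (N : ℝ) ^ β) :=
    le_of_tendsto_of_tendsto' hlim (hzero.add_const _) hle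
  nlinarith

/-! ### the theorem -/

open Asymptotics in
theorem main (A : Set ℕ) (hA : A.Infinite) {k : ℕ} (hk : 2 ≤ k) (P : (Fin k → ℕ) → Prop)
    (hP : Good P) (hm : ∃ n₀, ∀ n ≥ n₀, cI A P n ≤ cI A P (n + 1)) (ε : ℝ) (hε : 0 < ε) :
    ¬ (fun n : ℕ => (count A n : ℝ)) =O[atTop] (fun n : ℕ => (n : ℝ) ^ ((2 : ℝ) / k - ε)) := by
  intro hO
  obtain ⟨n₀, hm⟩ := hm
  have hk2 : (2 : ℝ) ≤ k := by exact_mod_cast hk
  have hk0 : (0 : ℝ) < k := by linarith
  set β : ℝ := max (2 / k - ε) (1 / k) with hβ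
  have hβlt : β < 2 / k := by
    rw [hβ]
    refine max_lt (by linarith) ?_
    gcongr
    norm_num
  have hβ0 : 0 < β := lt_of_lt_of_le (by positivity) (le_max_right _ _)
  have hβ1 : β ≤ 1 := by
    have : (2 : ℝ) / k ≤ 1 := by rw [div_le_one hk0]; exact hk2
    linarith
  refine no_Pb A hA hk P hP n₀ hm β hβlt ?_
  obtain ⟨C, hC⟩ := hO.bound
  obtain ⟨m, hm'⟩ := Filter.eventually_atTop.1 hC
  refine Pb_of_cnt A β hβ0 hβ1 (|C| + m) (by positivity) ?_
  intro n hn
  have hnR : (1 : ℝ) ≤ n := by exact_mod_cast hn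
  have hnβ : 1 ≤ (n : ℝ) ^ β := Real.one_le_rpow hnR hβ0.le
  rcases le_total m n with h | h
  · have h1 := hm' n h
    rw [Real.norm_of_nonneg (by positivity), Real.norm_of_nonneg (by positivity)] at h1
    have h2 : (n : ℝ) ^ ((2 : ℝ) / k - ε) ≤ (n : ℝ) ^ β :=
      Real.rpow_le_rpow_of_exponent_le hnR (le_max_left _ _)
    calc (count A n : ℝ) ≤ C * (n : ℝ) ^ ((2 : ℝ) / k - ε) := h1
      _ ≤ |C| * (n : ℝ) ^ ((2 : ℝ) / k - ε) := mul_le_mul_of_nonneg_right (le_abs_self C) (by positivity)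
      _ ≤ |C| * (n : ℝ) ^ β := mul_le_mul_of_nonneg_left h2 (abs_nonneg C)
      _ ≤ (|C| + m) * (n : ℝ) ^ β := by
        refine mul_le_mul_of_nonneg_right ?_ (by positivity)
        have : (0 : ℝ) ≤ m := by positivity
        linarith
  · have h1 : count A n ≤ n := by
      unfold count
      refine (Set.ncard_le_ncard (Set.inter_subset_right) (Set.finite_Ioc 0 n)).trans ?_
      rw [← Finset.coe_Ioc, Set.ncard_coe_finset]
      simp
    have h2 : (count A n : ℝ) ≤ m := by exact_mod_cast h1.trans h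
    have h3 : (m : ℝ) ≤ (|C| + m) * (n : ℝ) ^ β := by
      have h4 : (0 : ℝ) ≤ |C| := abs_nonneg C
      have h5 : (0 : ℝ) ≤ m := by positivity
      nlinarith
    linarith



theorem r₁_eq (A : Set ℕ) (n k : ℕ) : r₁ A n k = cI A (fun _ : Fin k → ℕ => True) n := by
  unfold r₁ cI; congr 1; ext a; simp

theorem r₂_eq (A : Set ℕ) (n k : ℕ) : r₂ A n k = cI A (fun a : Fin k → ℕ => Monotone a) n := by
  unfold r₂ cI; congr 1; ext a; simp only [Set.mem_ofPred_eq]; tauto

theorem r₃_eq (A : Set ℕ) (n k : ℕ) : r₃ A n k = cI A (fun a : Fin k → ℕ => StrictMono a) n := by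
  unfold r₃ cI; congr 1; ext a; simp only [Set.mem_ofPred_eq]; tauto

/-- Sanity check: the set of tuples counted by `r₁` (hence also by `r₂` and `r₃`) is finite. -/
theorem finite_tuples (A : Set ℕ) (n k : ℕ) :
    {a : Fin k → ℕ | (∀ j, a j ∈ A) ∧ ∑ j, a j = n}.Finite := by
  refine (box k (n + 1)).finite_toSet.subset ?_
  intro a ha
  simp only [Set.mem_ofPred_eq] at ha
  rw [Finset.mem_coe, mem_box]
  intro j
  have := Finset.single_le_sum (f := a) (fun _ _ => Nat.zero_le _) (Finset.mem_univ j)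
  omega

open Asymptotics in
/-- **Answer to Q1 (affirmative).**  For every integer `k ≥ 2`, every `i ∈ {1,2,3}`, every `ε > 0`
and every infinite `A ⊆ ℕ₀`, if `r_i(A,n,k)` is increasing from some point on, then
`A(n) = O(n^{2/k-ε})` fails. -/
theorem result (k : ℕ) (hk : 2 ≤ k) (A : Set ℕ) (hA : A.Infinite)
    (hinc : EventuallyIncreasing (fun n => r₁ A n k) ∨ EventuallyIncreasing (fun n => r₂ A n k) ∨
      EventuallyIncreasing (fun n => r₃ A n k))
    (ε : ℝ) (hε : 0 < ε) :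
    ¬ (fun n : ℕ => (count A n : ℝ)) =O[atTop] (fun n : ℕ => (n : ℝ) ^ ((2 : ℝ) / k - ε)) := by
  rcases hinc with h | h | h
  · simp only [r₁_eq] at h
    exact main A hA hk _ (Or.inl rfl) h ε hε
  · simp only [r₂_eq] at h
    exact main A hA hk _ (Or.inr (Or.inl rfl)) h ε hε
  · simp only [r₃_eq] at h
    exact main A hA hk _ (Or.inr (Or.inr rfl)) h ε hε

end Pool.Agent.Results.MP_885588_nt.Growth
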